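import Pool.Agent.H14.AVS.S3

/-!
# AVS: statements of the modules, part 4 (counting)
-/

set_option autoImplicit false

namespace Pool.AVS

open Polynomial Matrix Pool.AVR

/-- WUN: the unweighted counting inequality for one curve. -/
def WUNStmt : Prop :=
  ∀ (F : Type) [Field F] [Finite F], (2 : F) ≠ 0 → ∀ (n k : ℕ) (f : F[X] × F[X] × F[X]),
    f ∈ Ell F n →
    (∀ B : Matrix (Fin 3) (Fin 3) F[X], Bᵀ = B → (AA F[X] * B).charpoly = cubP f →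
      {g : Matrix (Fin 3) (Fin 3) F[X] | gᵀ * AA F[X] * g = AA F[X] ∧ gᵀ * B * g = B ∧
        g.det = 1}.Finite ∧
      {g : Matrix (Fin 3) (Fin 3) F[X] | gᵀ * AA F[X] * g = AA F[X] ∧ gᵀ * B * g = B ∧
        g.det = 1}.ncard ≤ k) →
    (Sel f).Finite ∧ ((Sel f \ {1}).ncard : ℝ) ≤ k * ∑ m ∈ Finset.range (n + 1),
      ({B : Matrix (Fin 3) (Fin 3) F[X] | Bd n m B ∧
        (AA F[X] * B).charpoly = cubP f}.ncard : ℝ) / (GG F m).ncard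

/-- WUW: the weighted upper counting inequality for one curve. -/
def WUWStmt : Prop :=
  ∀ (F : Type) [Field F] [Finite F], (2 : F) ≠ 0 → ∀ (n N : ℕ) (S : Finset F[X])
    (f : F[X] × F[X] × F[X]), f ∈ Irr F n → 1 ≤ N → (∀ P ∈ S, P.Monic ∧ Irreducible P) →
    (∀ P ∈ S, ¬ P ^ N ∣ disc f.1 f.2.1 f.2.2) →
    ¬ X ^ N ∣ disc (finf n f).1 (finf n f).2.1 (finf n f).2.2 →
    ((Sel f \ {1}).ncard : ℝ) ≤ ∑ m ∈ Finset.range (n + 1),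
      (∑ᶠ B ∈ {B : Matrix (Fin 3) (Fin 3) F[X] | Bd n m B ∧ (AA F[X] * B).charpoly = cubP f},
        WS n m S N B) / (GG F m).ncard

/-- WLL: the weighted lower counting inequality for one curve. -/
def WLLStmt : Prop :=
  ∀ (F : Type) [Field F] [Finite F], (2 : F) ≠ 0 → ∀ (n N : ℕ) (S : Finset F[X])
    (f : F[X] × F[X] × F[X]), f ∈ Irr F n → 1 ≤ N → (∀ P ∈ S, P.Monic ∧ Irreducible P) →
    (∀ P ∈ S, ¬ P ^ N ∣ disc f.1 f.2.1 f.2.2) →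
    ¬ X ^ N ∣ disc (finf n f).1 (finf n f).2.1 (finf n f).2.2 →
    (∀ P : F[X], P.Monic → Irreducible P → P ∉ S → ¬ P ^ 2 ∣ disc f.1 f.2.1 f.2.2) →
    ∑ m ∈ Finset.range (n + 1),
      (∑ᶠ B ∈ {B : Matrix (Fin 3) (Fin 3) F[X] | Bd n m B ∧ (AA F[X] * B).charpoly = cubP f ∧
        ¬ Triv B}, WS n m S N B) / (GG F m).ncard ≤ ((Sel f \ {1}).ncard : ℝ)

/-- GRE: the orders of the groups. -/
def GREStmt : Prop :=
  ∀ (F : Type) [Field F] [Finite F], (2 : F) ≠ 0 →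
    (∀ m, (GG F m).Finite) ∧ (GG F 0).ncard = Nat.card F ^ 3 - Nat.card F ∧
      ∀ m : ℕ, 1 ≤ m → (GG F m).ncard = (Nat.card F - 1) * Nat.card F ^ (m + 1)

/-- MAS: the mass formula over a finite local ring. -/
def MASStmt : Prop :=
  ∀ (R k : Type) [CommRing R] [Field k] [Finite R] [Finite k] (φ : R →+* k),
    Function.Surjective φ → (∀ x : R, IsUnit x ∨ φ x = 0) → IsUnit (2 : R) → ∀ a b c : R,
    (Nat.card k : ℝ) ^ 2 * ∑ᶠ B ∈ Fb a b c, ((SmF (B.map φ)).ncard : ℝ) =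
      ((Nat.card k : ℝ) - 1) * ((Nat.card k : ℝ) ^ 2 - 1) * (Nat.card R : ℝ) ^ 2 *
        ((Nat.card k : ℝ) * nE R a b c + Nat.card R)

/-- LVF: the local average of the weights, for every cubic. -/
def LVFStmt : Prop :=
  ∀ (F : Type) [Field F] [Finite F], (2 : F) ≠ 0 → ∀ (P : F[X]) (N : ℕ), P.Monic →
    Irreducible P → 1 ≤ N →
    Nat.card (AdjoinRoot (P ^ N)) = Nat.card F ^ (N * P.natDegree) ∧
    (∀ B B' : Matrix (Fin 3) (Fin 3) F[X],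
      B.map (AdjoinRoot.mk (P ^ N)) = B'.map (AdjoinRoot.mk (P ^ N)) → wt P N B = wt P N B') ∧
    (∀ B : Matrix (Fin 3) (Fin 3) F[X],
      wt P N ((B.map (AdjoinRoot.mk (P ^ N))).map lft) = wt P N B) ∧
    (∀ B : Matrix (Fin 3) (Fin 3) F[X], 0 ≤ wt P N B ∧
      wt P N B ≤ 2 * ((Nat.card F : ℝ) ^ P.natDegree + 1)) ∧
    ∀ a b c : AdjoinRoot (P ^ N), ∑ᶠ B ∈ Fb a b c, wt P N (B.map lft) =
      (1 - 1 / (Nat.card F : ℝ) ^ (2 * P.natDegree)) *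
        (Nat.card F : ℝ) ^ (3 * (N * P.natDegree))

/-- BIN: invariants at infinity. -/
def BINStmt : Prop :=
  ∀ (F : Type) [Field F] (n m : ℕ), m ≤ n → ∀ B : Matrix (Fin 3) (Fin 3) F[X], Bd n m B →
    (Binf n m B)ᵀ = Binf n m B ∧ (ia B, ib B, ic B) ∈ Fam F n ∧
    ia (Binf n m B) = (ia B).reflect (2 * n) ∧ ib (Binf n m B) = (ib B).reflect (4 * n) ∧
    ic (Binf n m B) = (ic B).reflect (6 * n) ∧ dB (Binf n m B) = (dB B).reflect (12 * n)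

/-- EQP: equidistribution of the bounded symmetric matrices modulo coprime polynomials and at
infinity, for arbitrary functions. -/
def EQPStmt : Prop :=
  ∀ (F : Type) [Field F] [Finite F] (n m N : ℕ) (T : Finset F[X]), m ≤ n → 1 ≤ N →
    (∀ M ∈ T, M.Monic) → (∀ M ∈ T, ∀ M' ∈ T, M ≠ M' → IsCoprime M M') →
    (∑ M ∈ T, M.natDegree) + N ≤ 2 * (n - m) + 1 →
    ∀ (Φ : (M : F[X]) → Matrix (Fin 3) (Fin 3) (AdjoinRoot M) → ℝ)
      (Ψ : Matrix (Fin 3) (Fin 3) (AdjoinRoot ((X : F[X]) ^ N)) → ℝ),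
      {B : Matrix (Fin 3) (Fin 3) F[X] | Bd n m B}.Finite ∧
      ∑ᶠ B ∈ {B : Matrix (Fin 3) (Fin 3) F[X] | Bd n m B},
        (∏ M ∈ T, Φ M (B.map (AdjoinRoot.mk M))) *
          Ψ ((Binf n m B).map (AdjoinRoot.mk (X ^ N))) =
      (Nat.card F : ℝ) ^ (12 * n + 6) *
        (∏ M ∈ T, (∑ᶠ B ∈ {B : Matrix (Fin 3) (Fin 3) (AdjoinRoot M) | Bᵀ = B}, Φ M B) /
          (Nat.card F : ℝ) ^ (6 * M.natDegree)) *
        ((∑ᶠ B ∈ {B : Matrix (Fin 3) (Fin 3) (AdjoinRoot ((X : F[X]) ^ N)) | Bᵀ = B}, Ψ B) /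
          (Nat.card F : ℝ) ^ (6 * N))

/-- BDN: few matrices have a discriminant divisible by a high power. -/
def BDNStmt : Prop :=
  ∀ (F : Type) [Field F] [Finite F], (2 : F) ≠ 0 → ∀ (P : F[X]), P.Monic → Irreducible P →
    ∀ ε : ℝ, 0 < ε → ∃ N₀ : ℕ, ∀ N : ℕ, N₀ ≤ N →
    ({B : Matrix (Fin 3) (Fin 3) (AdjoinRoot (P ^ N)) | Bᵀ = B ∧ dB B = 0}.ncard : ℝ) ≤
      ε * (Nat.card F : ℝ) ^ (6 * (N * P.natDegree))

/-- FDN: few cubics have a discriminant divisible by a high power. -/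
def FDNStmt : Prop :=
  ∀ (F : Type) [Field F] [Finite F], (2 : F) ≠ 0 → ∀ (P : F[X]), P.Monic → Irreducible P →
    ∀ ε : ℝ, 0 < ε → ∃ N₀ : ℕ, ∀ N : ℕ, N₀ ≤ N →
    ({t : AdjoinRoot (P ^ N) × AdjoinRoot (P ^ N) × AdjoinRoot (P ^ N) |
      disc t.1 t.2.1 t.2.2 = 0}.ncard : ℝ) ≤ ε * (Nat.card F : ℝ) ^ (3 * (N * P.natDegree))

/-- TRL: over a finite field many matrices have no common isotropic vector. -/
def TRLStmt : Prop :=
  ∃ δ : ℝ, 0 < δ ∧ ∀ (k : Type) [Field k] [Finite k], (2 : k) ≠ 0 →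
    δ * (Nat.card k : ℝ) ^ 6 ≤ ({B : Matrix (Fin 3) (Fin 3) k | Bᵀ = B ∧
      ∀ z : Fin 3 → k, z ≠ 0 → bil (AA k) z z = 0 → bil B z z ≠ 0}.ncard : ℝ)

/-- TRV: few matrices have a trivial class. -/
def TRVStmt : Prop :=
  ∀ (F : Type) [Field F] [Finite F], (2 : F) ≠ 0 → ∀ ε : ℝ, 0 < ε → ∃ D : ℕ, ∀ n m : ℕ,
    m + D ≤ n → ({B : Matrix (Fin 3) (Fin 3) F[X] | Bd n m B ∧ Triv B}.ncard : ℝ) ≤
      ε * (Nat.card F : ℝ) ^ (12 * n + 6)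

/-- LDE: the local situation for discriminants of valuation at most one. -/
def LDEStmt : Prop :=
  ∀ (F : Type) [Field F] [Finite F], (2 : F) ≠ 0 → ∀ P : F[X], P.Monic → Irreducible P →
    (∀ a b c : AdjoinRoot (P ^ 2), disc a b c ≠ 0 → (Fb a b c).ncard =
      Nat.card F ^ (6 * P.natDegree) - Nat.card F ^ (4 * P.natDegree)) ∧
    (∀ B : Matrix (Fin 3) (Fin 3) F[X], Bᵀ = B → ¬ P ^ 2 ∣ dB B →
      (SmF (B.map (AdjoinRoot.mk P))).Nonempty) ∧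
    ({B : Matrix (Fin 3) (Fin 3) (AdjoinRoot (P ^ 2)) | Bᵀ = B ∧ dB B = 0}.ncard : ℝ) ≤
      3 * (Nat.card F : ℝ) ^ (10 * P.natDegree)

/-- TBL: few discriminants are divisible by the square of a large prime. -/
def TBLStmt : Prop :=
  ∀ (F : Type) [Field F] [Finite F], (2 : F) ≠ 0 → ∀ (m : ℕ) (ε : ℝ), 0 < ε → ∃ N₀ : ℕ,
    ∀ n : ℕ, N₀ ≤ n → ({B : Matrix (Fin 3) (Fin 3) F[X] | Bd n m B ∧ ∃ P : F[X], P.Monic ∧
      Irreducible P ∧ n < 2 * P.natDegree ∧ P ^ 2 ∣ dB B}.ncard : ℝ) ≤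
        ε * (Nat.card F : ℝ) ^ (12 * n + 6)

open Classical in
/-- LMU: the upper bound for the average. -/
def LMUStmt : Prop :=
  ∀ (F : Type) [Field F] [Finite F], (2 : F) ≠ 0 → ∀ ε : ℝ, 0 < ε → ∃ N : ℕ, ∀ n : ℕ, N ≤ n →
    (Ell F n).Finite ∧ (∀ f ∈ Ell F n, (Sel f).Finite) ∧
    ∑ᶠ f ∈ Ell F n, ((Sel f).ncard : ℝ) ≤ (3 + ε) * (Ell F n).ncard

open Classical in
/-- LML: the lower bound for the average. -/
def LMLStmt : Prop :=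
  ∀ (F : Type) [Field F] [Finite F], (2 : F) ≠ 0 → ∀ ε : ℝ, 0 < ε → ∃ N : ℕ, ∀ n : ℕ, N ≤ n →
    (3 - ε) * (Ell F n).ncard ≤ ∑ᶠ f ∈ Ell F n, ((Sel f).ncard : ℝ)

open Classical in
/-- RKR: the curves with rational points of order two do not contribute to the averages. -/
def RKRStmt : Prop :=
  ∀ (F : Type) [Field F] [Finite F], (2 : F) ≠ 0 → ∀ ε : ℝ, 0 < ε → ∃ N : ℕ, ∀ n : ℕ, N ≤ n →
    ∑ᶠ f ∈ Ell F n \ Irr F n, (Nat.card (Mod2 (EK f)) : ℝ) ≤ ε * (Ell F n).ncard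

end Pool.AVS
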