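import Pool.Agent.H14.AVS.S2

/-!
# AVS: statements of the modules, part 3 (completions, gluing, the Selmer group)
-/

set_option autoImplicit false

namespace Pool.AVS

open Polynomial Matrix Pool.AVR

/-- CPP: the completion at a prime polynomial. -/
def CPPStmt : Prop :=
  ∀ (F : Type) [Field F] [Finite F], (2 : F) ≠ 0 → ∀ P : F[X], P.Monic → Irreducible P →
    ∀ v : IsDedekindDomain.HeightOneSpectrum F[X], v.asIdeal = Ideal.span {P} →
    IsComp F (IP P) (algebraMap F[X] (RatFunc F) P) (v.adicCompletion (RatFunc F))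
      (v.adicCompletionIntegers (RatFunc F))
      (algebraMap (RatFunc F) (v.adicCompletion (RatFunc F)))

open Classical in
/-- CPI: the completion at infinity. -/
def CPIStmt : Prop :=
  ∀ (F : Type) [Field F] [Finite F], (2 : F) ≠ 0 →
    IsComp F (Iinf F) (RatFunc.X)⁻¹ (RatFunc.CompletionAtInfty F)
      (Valued.v (R := RatFunc.CompletionAtInfty F)
        (Γ₀ := WithZero (Multiplicative ℤ))).valuationSubring
      (algebraMap (RatFunc F) (RatFunc.CompletionAtInfty F))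

/-- RIP: the rings `O / P^N`. -/
def RIPStmt : Prop :=
  ∀ (F : Type) [Field F] [Finite F] (P : F[X]), P.Monic → Irreducible P →
    ∀ (L : Type) [Field L] (O : ValuationSubring L) (ι : RatFunc F →+* L),
    IsComp F (IP P) (algebraMap F[X] (RatFunc F) P) L O ι →
    kap O = Nat.card F ^ P.natDegree ∧ Nat.card (AdjoinRoot P) = Nat.card F ^ P.natDegree ∧
    ∀ N : ℕ, ∃ e : ON O N ≃+* AdjoinRoot (P ^ N), ∀ (p : F[X])
      (hp : ι (algebraMap F[X] (RatFunc F) p) ∈ O),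
      e (Ideal.Quotient.mk _ ⟨ι (algebraMap F[X] (RatFunc F) p), hp⟩) =
        AdjoinRoot.mk (P ^ N) p

/-- RII: the rings `O / t^(-N)` at infinity. -/
def RIIStmt : Prop :=
  ∀ (F : Type) [Field F] [Finite F],
    ∀ (L : Type) [Field L] (O : ValuationSubring L) (ι : RatFunc F →+* L),
    IsComp F (Iinf F) (RatFunc.X)⁻¹ L O ι →
    kap O = Nat.card F ∧ Nat.card (AdjoinRoot (X : F[X])) = Nat.card F ∧
    ∀ N : ℕ, ∃ e : ON O N ≃+* AdjoinRoot ((X : F[X]) ^ N), ∀ (M : ℕ) (p : F[X]),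
      p.natDegree ≤ M →
      ∀ hp : ι (algebraMap F[X] (RatFunc F) p / RatFunc.X ^ M) ∈ O,
      e (Ideal.Quotient.mk _ ⟨ι (algebraMap F[X] (RatFunc F) p / RatFunc.X ^ M), hp⟩) =
        AdjoinRoot.mk (X ^ N) (p.reflect M)

/-- APX: approximation of matrices over the completion. -/
def APXStmt : Prop :=
  ∀ (F : Type) [Field F] (I : Set (RatFunc F)) (ϖ : RatFunc F) (L : Type) [Field L]
    (O : ValuationSubring L) (ι : RatFunc F →+* L), IsComp F I ϖ L O ι →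
    ∀ g : Matrix (Fin 3) (Fin 3) L, g.det ≠ 0 →
    ∃ (g' : Matrix (Fin 3) (Fin 3) (RatFunc F)) (κ : Matrix (Fin 3) (Fin 3) L),
      g'.det ≠ 0 ∧ GI (O : Set L) κ ∧ g = g'.map ι * κ

/-- TRA: the local notions over `F(t)` and over the completion agree. -/
def TRAStmt : Prop :=
  ∀ (F : Type) [Field F] (I : Set (RatFunc F)) (ϖ : RatFunc F) (L : Type) [Field L]
    (O : ValuationSubring L) (ι : RatFunc F →+* L), IsComp F I ϖ L O ι →
    (∀ (B g : Matrix (Fin 3) (Fin 3) (RatFunc F)) (z : Fin 3 → RatFunc F) (w : RatFunc F),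
      KP I ϖ B g z w ↔ KP (O : Set L) (ι ϖ) (B.map ι) (g.map ι) (fun i => ι (z i)) (ι w)) ∧
    (∀ (g g' : Matrix (Fin 3) (Fin 3) (RatFunc F)) (z z' : Fin 3 → RatFunc F)
      (w w' : RatFunc F), g.det ≠ 0 →
      (Eqv I ϖ g z w g' z' w' ↔ Eqv (O : Set L) (ι ϖ) (g.map ι) (fun i => ι (z i)) (ι w)
        (g'.map ι) (fun i => ι (z' i)) (ι w')))

/-- LUG: many pairs, over `F(t)`. -/
def LUGStmt : Prop :=
  ∀ (F : Type) [Field F] (I : Set (RatFunc F)) (ϖ : RatFunc F) (L : Type) [Field L]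
    (O : ValuationSubring L) (ι : RatFunc F →+* L), IsComp F I ϖ L O ι →
    ∀ (N : ℕ) (a b c : O), disc a b c ∉ (IsLocalRing.maximalIdeal O) ^ N →
    ∀ (B : Matrix (Fin 3) (Fin 3) (RatFunc F)) (z₀ : Fin 3 → L) (w₀ : L), Bᵀ = B →
    ι (ia B) = a → ι (ib B) = b → ι (ic B) = c → Cov (B.map ι) z₀ w₀ → w₀ ≠ 0 →
    ∃ (M : ℕ) (g : Fin M → Matrix (Fin 3) (Fin 3) (RatFunc F)) (z : Fin M → Fin 3 → RatFunc F)
      (w : Fin M → RatFunc F), (∀ i, KP I ϖ B (g i) (z i) (w i)) ∧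
      (∀ i j, i ≠ j → ¬ Eqv I ϖ (g i) (z i) (w i) (g j) (z j) (w j)) ∧
      nE (ON O N) (Ideal.Quotient.mk _ a) (Ideal.Quotient.mk _ b) (Ideal.Quotient.mk _ c) +
        kap O ^ (N - 1) ≤ M * kap O ^ (N - 1)

/-- LLG: not more pairs, over `F(t)`. -/
def LLGStmt : Prop :=
  ∀ (F : Type) [Field F] (I : Set (RatFunc F)) (ϖ : RatFunc F) (L : Type) [Field L]
    (O : ValuationSubring L) (ι : RatFunc F →+* L), IsComp F I ϖ L O ι →
    ∀ (N : ℕ) (a b c : O), disc a b c ∉ (IsLocalRing.maximalIdeal O) ^ N →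
    ∀ (B : Matrix (Fin 3) (Fin 3) (RatFunc F)), Bᵀ = B →
    ι (ia B) = a → ι (ib B) = b → ι (ic B) = c →
    ∀ (M : ℕ) (g : Fin M → Matrix (Fin 3) (Fin 3) (RatFunc F)) (z : Fin M → Fin 3 → RatFunc F)
      (w : Fin M → RatFunc F), (∀ i, KP I ϖ B (g i) (z i) (w i)) →
      (∀ i j, i ≠ j → ¬ Eqv I ϖ (g i) (z i) (w i) (g j) (z j) (w j)) →
      M * kap O ^ (N - 1) ≤
        nE (ON O N) (Ideal.Quotient.mk _ a) (Ideal.Quotient.mk _ b) (Ideal.Quotient.mk _ c) +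
          kap O ^ (N - 1)

/-- LAC: the local lattice of a locally soluble class. -/
def LACStmt : Prop :=
  ∀ (F : Type) [Field F] (I : Set (RatFunc F)) (ϖ : RatFunc F) (L : Type) [Field L]
    (O : ValuationSubring L) (ι : RatFunc F →+* L), IsComp F I ϖ L O ι →
    ∀ (τ a b c : RatFunc F) (h : (RatFunc F)[X]), τ ≠ 0 → a / τ ^ 2 ∈ I → b / τ ^ 4 ∈ I →
    c / τ ^ 6 ∈ I → LocSol (ι a) (ι b) (ι c) (h.map ι) →
    ∃ g : Matrix (Fin 3) (Fin 3) (RatFunc F), g.det ≠ 0 ∧ GI I (gᵀ * gr0 a b c h * g) ∧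
      MI I ((τ ^ 2)⁻¹ • (gᵀ * gr1 a b c h * g))

/-- GLU: gluing at finitely many finite places. -/
def GLUStmt : Prop :=
  ∀ (F : Type) [Field F] (S : Finset F[X]), (∀ P ∈ S, P.Monic ∧ Irreducible P) →
    ∀ gP : F[X] → Matrix (Fin 3) (Fin 3) (RatFunc F), (∀ P ∈ S, (gP P).det ≠ 0) →
    ∃ g : Matrix (Fin 3) (Fin 3) (RatFunc F), g.det ≠ 0 ∧
      (∀ P ∈ S, ∃ κ, GI (IP P) κ ∧ g = gP P * κ) ∧
      ∀ P : F[X], P.Monic → Irreducible P → P ∉ S → GI (IP P) g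

/-- NR2: normal form of unimodular ternary forms over the projective line, with the change of
basis at infinity. -/
def NR2Stmt : Prop :=
  ∀ (F : Type) [Field F] [Finite F], (2 : F) ≠ 0 → ∀ (G : Matrix (Fin 3) (Fin 3) F[X])
    (G₀ : Matrix (Fin 3) (Fin 3) (RatFunc F)) (d : Fin 3 → ℤ) (ε : F), ε ≠ 0 →
    Gᵀ = G → G.det = -C (ε ^ 2) → GI (Iinf F) G₀ →
    G.map (algebraMap F[X] (RatFunc F)) =
      Matrix.diagonal (fun i => (RatFunc.X : RatFunc F) ^ d i) * G₀ *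
        Matrix.diagonal (fun i => (RatFunc.X : RatFunc F) ^ d i) →
    ∃ (m : ℕ) (γ : Matrix (Fin 3) (Fin 3) F[X]), γᵀ * G * γ = AA F[X] ∧
      GI (Iinf F) (Matrix.diagonal (fun i => (RatFunc.X : RatFunc F) ^ d i) *
        γ.map (algebraMap F[X] (RatFunc F)) * (Dm m)⁻¹)

/-- GLB: global form with prescribed local lattices. -/
def GLBStmt : Prop :=
  ∀ (F : Type) [Field F] [Finite F], (2 : F) ≠ 0 →
    ∀ (G : Matrix (Fin 3) (Fin 3) (RatFunc F)) (ε : RatFunc F) (S : Finset F[X])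
    (gP : F[X] → Matrix (Fin 3) (Fin 3) (RatFunc F)) (gi : Matrix (Fin 3) (Fin 3) (RatFunc F)),
    Gᵀ = G → ε ≠ 0 → G.det = -ε ^ 2 → (∀ P ∈ S, P.Monic ∧ Irreducible P) →
    (∀ P ∈ S, (gP P).det ≠ 0 ∧ GI (IP P) ((gP P)ᵀ * G * gP P)) →
    (∀ P : F[X], P.Monic → Irreducible P → P ∉ S → GI (IP P) G) →
    gi.det ≠ 0 → GI (Iinf F) (giᵀ * G * gi) →
    ∃ (m : ℕ) (g : Matrix (Fin 3) (Fin 3) (RatFunc F)), gᵀ * G * g = AA (RatFunc F) ∧
      (∀ P ∈ S, ∃ κ, GI (IP P) κ ∧ g = gP P * κ) ∧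
      (∀ P : F[X], P.Monic → Irreducible P → P ∉ S → GI (IP P) g) ∧
      ∃ κ, GI (Iinf F) κ ∧ g = gi * κ * Dm m

/-- MUQ: uniqueness of the splitting type. -/
def MUQStmt : Prop :=
  ∀ (F : Type) [Field F] (m m' : ℕ) (γ : Matrix (Fin 3) (Fin 3) F[X]), γ.det = 1 →
    γᵀ * AA F[X] * γ = AA F[X] →
    MI (Iinf F) (Dm m * γ.map (algebraMap F[X] (RatFunc F)) * (Dm m')⁻¹) →
    m = m' ∧ γ ∈ GG F m

/-- POL: functions regular at all finite places are polynomials; degrees. -/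
def POLStmt : Prop :=
  ∀ (F : Type) [Field F],
    (∀ x : RatFunc F, (∀ P : F[X], P.Monic → Irreducible P → x ∈ IP P) →
      ∃ p : F[X], x = algebraMap F[X] (RatFunc F) p) ∧
    (∀ (P : F[X]), Irreducible P → ∀ x y : RatFunc F, x ∈ IP P → y ∈ IP P →
      x + y ∈ IP P ∧ x * y ∈ IP P ∧ -x ∈ IP P) ∧
    (∀ (P p : F[X]), Irreducible P → algebraMap F[X] (RatFunc F) p ∈ IP P ∧
      ∀ N : ℕ, (algebraMap F[X] (RatFunc F) p / algebraMap F[X] (RatFunc F) P ^ N ∈ IP P ↔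
        P ^ N ∣ p)) ∧
    (∀ (n m : ℕ) (B : Matrix (Fin 3) (Fin 3) F[X]), Bᵀ = B →
      (Bd n m B ↔ MI (Iinf F) ((RatFunc.X : RatFunc F) ^ (-(2 * n : ℤ)) •
        ((Dm m)⁻¹ * B.map (algebraMap F[X] (RatFunc F)) * (Dm m)⁻¹))))

/-- KYS: every soluble class is represented by an integral symmetric matrix. -/
def KYSStmt : Prop :=
  ∀ (F : Type) [Field F] [Finite F], (2 : F) ≠ 0 → ∀ (n : ℕ) (f : F[X] × F[X] × F[X]),
    f ∈ Fam F n → ∀ h : (RatFunc F)[X], IsCoprime h (cubK f) →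
    IsSquare (Algebra.norm (RatFunc F) (AdjoinRoot.mk (cubK f) h)) →
    (∀ P : F[X], P.Monic → Irreducible P → SolAt (IP P) (algebraMap F[X] (RatFunc F) P) f h) →
    SolAt (Iinf F) (RatFunc.X)⁻¹ f h →
    ∃ (m : ℕ) (B : Matrix (Fin 3) (Fin 3) F[X]), Bd n m B ∧
      RepH (kf f).1 (kf f).2.1 (kf f).2.2 h (AA (RatFunc F))
        (B.map (algebraMap F[X] (RatFunc F)))

/-- CLE: equality of classes. -/
def CLEStmt : Prop :=
  ∀ (F : Type) [Field F] (f : F[X] × F[X] × F[X]) (h h' : (RatFunc F)[X]) (u u' : (Alg f)ˣ),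
    (u : Alg f) = AdjoinRoot.mk (cubK f) h → (u' : Alg f) = AdjoinRoot.mk (cubK f) h' →
    ((QuotientGroup.mk u : (Alg f)ˣ ⧸ Sq f) = QuotientGroup.mk u' ↔
      ∃ s : (RatFunc F)[X], cubK f ∣ h - h' * s ^ 2)

/-- SEH: elements of the Selmer group. -/
def SEHStmt : Prop :=
  ∀ (F : Type) [Field F] [Finite F], (2 : F) ≠ 0 → ∀ (f : F[X] × F[X] × F[X]),
    (∀ ξ ∈ Sel f, ∃ (h : (RatFunc F)[X]) (u : (Alg f)ˣ), IsCoprime h (cubK f) ∧
      (u : Alg f) = AdjoinRoot.mk (cubK f) h ∧ QuotientGroup.mk u = ξ ∧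
      IsSquare (Algebra.norm (RatFunc F) (AdjoinRoot.mk (cubK f) h)) ∧
      (∀ P : F[X], P.Monic → Irreducible P →
        SolAt (IP P) (algebraMap F[X] (RatFunc F) P) f h) ∧
      SolAt (Iinf F) (RatFunc.X)⁻¹ f h) ∧
    (∀ (h : (RatFunc F)[X]) (u : (Alg f)ˣ), (u : Alg f) = AdjoinRoot.mk (cubK f) h →
      IsSquare (Algebra.norm (RatFunc F) (AdjoinRoot.mk (cubK f) h)) →
      (∀ P : F[X], P.Monic → Irreducible P → ∀ (L : Type) [Field L] (O : ValuationSubring L)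
        (ι : RatFunc F →+* L), IsComp F (IP P) (algebraMap F[X] (RatFunc F) P) L O ι →
        LocSol (ι (kf f).1) (ι (kf f).2.1) (ι (kf f).2.2) (h.map ι)) →
      (∀ (L : Type) [Field L] (O : ValuationSubring L) (ι : RatFunc F →+* L),
        IsComp F (Iinf F) (RatFunc.X)⁻¹ L O ι →
        LocSol (ι (kf f).1) (ι (kf f).2.1) (ι (kf f).2.2) (h.map ι)) →
      (QuotientGroup.mk u : (Alg f)ˣ ⧸ Sq f) ∈ Sel f) ∧
    (1 : (Alg f)ˣ ⧸ Sq f) ∈ Sel f

open Classical in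
/-- EMB: `E / 2E` embeds into the Selmer group. -/
def EMBStmt : Prop :=
  ∀ (F : Type) [Field F] [Finite F], (2 : F) ≠ 0 → ∀ (n : ℕ) (f : F[X] × F[X] × F[X]),
    f ∈ Irr F n → (Sel f).Finite → Nat.card (Mod2 (EK f)) ≤ (Sel f).ncard

end Pool.AVS
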