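import Pool.Agent.H14.AVS.S6

/-!
# AVS: the final statements for the three families of equations
-/

set_option autoImplicit false

namespace Pool.AVS

open Polynomial Matrix Pool.AVR

variable {F : Type} [Field F]

open Classical in
/-- For the family `S n` of equations: the average size of the 2-Selmer group tends to 3; the average
of `2 ^ rank` is at most `3 + o(1)`, the average rank at most `3 / 2 + o(1)`, and the rank is at most
one for a proportion at least `1 / 3 - o(1)`. -/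
def Avg (S : ℕ → Set (F[X] × F[X] × F[X])) : Prop :=
  (∀ n : ℕ, (S n).Finite) ∧ (∃ N : ℕ, ∀ n : ℕ, N ≤ n → (S n).Nonempty) ∧
  Filter.Tendsto (fun n : ℕ => (∑ᶠ f ∈ S n, ((Sel f).ncard : ℝ)) / (S n).ncard)
    Filter.atTop (nhds 3) ∧
  ∀ ε : ℝ, 0 < ε → ∃ N : ℕ, ∀ n : ℕ, N ≤ n →
    ∑ᶠ f ∈ S n, (2 : ℝ) ^ rk f ≤ (3 + ε) * (S n).ncard ∧
    ∑ᶠ f ∈ S n, (rk f : ℝ) ≤ (3 / 2 + ε) * (S n).ncard ∧
    (1 / 3 - ε) * (S n).ncard ≤ {f ∈ S n | rk f ≤ 1}.ncard

variable (F) in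
open Classical in
/-- The final statement. -/
def MainAll : Prop :=
  (∀ n : ℕ, ∀ f ∈ Ell F n, (E (algebraMap F[X] (RatFunc F) f.1) (algebraMap F[X] (RatFunc F) f.2.1)
      (algebraMap F[X] (RatFunc F) f.2.2)).Δ ≠ 0 ∧ AddGroup.FG (EK f) ∧ (Sel f).Finite) ∧
  Avg (Ell F) ∧ ((3 : F) ≠ 0 → Avg (Sht F) ∧ Avg (ShtM F))

/-- From sums to averages. -/
theorem avg_of {S : ℕ → Set (F[X] × F[X] × F[X])} (hfin : ∀ n, (S n).Finite)
    (hne : ∃ N : ℕ, ∀ n : ℕ, N ≤ n → (S n).Nonempty)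
    (h : ∀ ε : ℝ, 0 < ε → ∃ N : ℕ, ∀ n : ℕ, N ≤ n →
      (3 - ε) * (S n).ncard ≤ ∑ᶠ f ∈ S n, ((Sel f).ncard : ℝ) ∧
      ∑ᶠ f ∈ S n, ((Sel f).ncard : ℝ) ≤ (3 + ε) * (S n).ncard)
    (h' : ∀ ε : ℝ, 0 < ε → ∃ N : ℕ, ∀ n : ℕ, N ≤ n →
      ∑ᶠ f ∈ S n, (2 : ℝ) ^ rk f ≤ ∑ᶠ f ∈ S n, ((Sel f).ncard : ℝ) + ε * (S n).ncard) :
    Avg S := by
  classical
  obtain ⟨N₀, hN₀⟩ := hne
  refine ⟨hfin, ⟨N₀, hN₀⟩, ?_, ?_⟩
  · rw [Metric.tendsto_atTop]
    intro ε hε
    obtain ⟨N₁, hN₁⟩ := h (ε / 2) (by linarith)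
    refine ⟨max N₁ N₀, fun n hn => ?_⟩
    obtain ⟨h6, h5⟩ := hN₁ n ((le_max_left _ _).trans hn)
    have hp : (0 : ℝ) < (S n).ncard := by
      exact_mod_cast (Set.ncard_pos (hfin n)).2 (hN₀ n ((le_max_right _ _).trans hn))
    rw [Real.dist_eq, abs_lt]
    have h7 : (∑ᶠ f ∈ S n, ((Sel f).ncard : ℝ)) / (S n).ncard ≤ 3 + ε / 2 := by
      rw [div_le_iff₀ hp]
      exact h5
    have h8 : 3 - ε / 2 ≤ (∑ᶠ f ∈ S n, ((Sel f).ncard : ℝ)) / (S n).ncard := by
      rw [le_div_iff₀ hp]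
      exact h6
    constructor <;> linarith
  · intro ε hε
    obtain ⟨N₁, hN₁⟩ := h (ε / 2) (by linarith)
    obtain ⟨N₂, hN₂⟩ := h' (ε / 2) (by linarith)
    refine ⟨max N₁ N₂, fun n hn => ?_⟩
    have h5 := (hN₁ n ((le_max_left _ _).trans hn)).2
    have h6 := hN₂ n ((le_max_right _ _).trans hn)
    have h7 : ∑ᶠ f ∈ S n, (2 : ℝ) ^ rk f ≤ (3 + ε) * (S n).ncard := by linarith
    refine ⟨h7, ?_, small_of_pow (hfin n) rk hε h7⟩
    refine (rank_of_pow (hfin n) rk h7).trans ?_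
    refine mul_le_mul_of_nonneg_right ?_ (Nat.cast_nonneg _)
    linarith

theorem finsum_mem_mono_set {α : Type} {s t : Set α} (ht : t.Finite) (hst : s ⊆ t) {g : α → ℝ}
    (hg : ∀ a ∈ t, 0 ≤ g a) : ∑ᶠ a ∈ s, g a ≤ ∑ᶠ a ∈ t, g a := by
  rw [finsum_mem_eq_finite_toFinset_sum g (ht.subset hst), finsum_mem_eq_finite_toFinset_sum g ht]
  refine Finset.sum_le_sum_of_subset_of_nonneg ?_ fun a ha _ => hg a (ht.mem_toFinset.1 ha)
  intro a ha
  exact ht.mem_toFinset.2 (hst ((ht.subset hst).mem_toFinset.1 ha))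

theorem finsum_mem_split {α : Type} {s t : Set α} (ht : t.Finite) (hst : s ⊆ t) (g : α → ℝ) :
    ∑ᶠ a ∈ t, g a = ∑ᶠ a ∈ s, g a + ∑ᶠ a ∈ t \ s, g a := by
  have hu : t = s ∪ (t \ s) := (Set.union_sdiff_cancel hst).symm
  conv_lhs => rw [hu]
  exact finsum_mem_union Set.disjoint_sdiff_right (ht.subset hst) (ht.subset Set.sdiff_subset)

theorem mainAll_of (hLMU : LMUStmt) (hLML : LMLStmt) (hRKR : RKRStmt) (hEMB : EMBStmt)
    (hMWL : MWLStmt) (hRNK : RNKStmt) (hDSC : DSCStmt) (hST2 : ST2Stmt)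
    (hSHI : SHIStmt) (hSHP : SHPStmt) (hSHC : SHCStmt) (hSHM : SHMStmt)
    (F : Type) [Field F] [Finite F] (h2 : (2 : F) ≠ 0) : MainAll F := by
  classical
  obtain ⟨hA, hB, hC⟩ := mainAV_of hLMU hLML hRKR hEMB hMWL hRNK hDSC hST2 F h2
  have hfin : ∀ n, (Ell F n).Finite := fun n => (hA n).1
  have hsep : ∀ f : F[X] × F[X] × F[X], disc f.1 f.2.1 f.2.2 ≠ 0 → (cubK f).Separable := by
    intro f hf
    have h2K : (2 : RatFunc F) ≠ 0 := by
      intro h
      apply h2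
      have h3 : algebraMap F (RatFunc F) 2 = algebraMap F (RatFunc F) 0 := by
        rw [map_ofNat, map_zero]
        exact h
      exact (algebraMap F (RatFunc F)).injective h3
    rw [cubK, (hDSC (RatFunc F) h2K _ _ _).1]
    have : disc (algebraMap F[X] (RatFunc F) f.1) (algebraMap F[X] (RatFunc F) f.2.1)
        (algebraMap F[X] (RatFunc F) f.2.2) = algebraMap F[X] (RatFunc F)
          (disc f.1 f.2.1 f.2.2) := by
      simp only [disc, map_add, map_sub, map_mul, map_pow, map_ofNat]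
    rw [this]
    exact (map_ne_zero_iff _ (RatFunc.algebraMap_injective F)).2 hf
  have hIrrEll : ∀ n, Irr F n ⊆ Ell F n := by
    intro n f hf
    refine ⟨hf.1, ?_⟩
    have h2K : (2 : RatFunc F) ≠ 0 := by
      intro h
      apply h2
      have h3 : algebraMap F (RatFunc F) 2 = algebraMap F (RatFunc F) 0 := by
        rw [map_ofNat, map_zero]
        exact h
      exact (algebraMap F (RatFunc F)).injective h3
    have h3 := hf.2.2
    rw [cubK, (hDSC (RatFunc F) h2K _ _ _).1] at h3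
    have : disc (algebraMap F[X] (RatFunc F) f.1) (algebraMap F[X] (RatFunc F) f.2.1)
        (algebraMap F[X] (RatFunc F) f.2.2) = algebraMap F[X] (RatFunc F)
          (disc f.1 f.2.1 f.2.2) := by
      simp only [disc, map_add, map_sub, map_mul, map_pow, map_ofNat]
    rw [this] at h3
    exact (map_ne_zero_iff _ (RatFunc.algebraMap_injective F)).1 h3
  have hle : ∀ n, ∀ f ∈ Ell F n, (2 : ℝ) ^ rk f ≤ Nat.card (Mod2 (EK f)) := by
    intro n f hf
    have := (hRNK (EK f) ((hA n).2.2 f hf).2.1).2.1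
    exact_mod_cast this
  have hemb : ∀ n, ∀ f ∈ Irr F n, (2 : ℝ) ^ rk f ≤ (Sel f).ncard := by
    intro n f hf
    refine (hle n f (hIrrEll n hf)).trans ?_
    exact_mod_cast hEMB F h2 n f hf ((hA n).2.2 f (hIrrEll n hf)).2.2
  -- a general bound for families inside `Ell`
  have hgen : ∀ (S : ℕ → Set (F[X] × F[X] × F[X])), (∀ n, S n ⊆ Ell F n) →
      (∀ ε : ℝ, 0 < ε → ∃ N : ℕ, ∀ n : ℕ, N ≤ n →
        ∑ᶠ f ∈ S n \ Irr F n, (Nat.card (Mod2 (EK f)) : ℝ) ≤ ε * (S n).ncard) →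
      ∀ ε : ℝ, 0 < ε → ∃ N : ℕ, ∀ n : ℕ, N ≤ n →
        ∑ᶠ f ∈ S n, (2 : ℝ) ^ rk f ≤ ∑ᶠ f ∈ S n, ((Sel f).ncard : ℝ) + ε * (S n).ncard := by
    intro S hS hred ε hε
    obtain ⟨N, hN⟩ := hred ε hε
    refine ⟨N, fun n hn => ?_⟩
    have hf1 : (S n).Finite := (hfin n).subset (hS n)
    have hsub : S n ∩ Irr F n ⊆ S n := Set.inter_subset_left
    have hd : S n \ (S n ∩ Irr F n) = S n \ Irr F n := by
      ext f
      simp
    have h3 := finsum_mem_split hf1 hsub fun f => (2 : ℝ) ^ rk f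
    have h4 := finsum_mem_split hf1 hsub fun f => ((Sel f).ncard : ℝ)
    rw [hd] at h3 h4
    have h5 : ∑ᶠ f ∈ S n ∩ Irr F n, (2 : ℝ) ^ rk f ≤
        ∑ᶠ f ∈ S n ∩ Irr F n, ((Sel f).ncard : ℝ) :=
      finsum_mem_le (hf1.subset hsub) fun f hf => hemb n f hf.2
    have h6 : ∑ᶠ f ∈ S n \ Irr F n, (2 : ℝ) ^ rk f ≤
        ∑ᶠ f ∈ S n \ Irr F n, (Nat.card (Mod2 (EK f)) : ℝ) :=
      finsum_mem_le (hf1.subset Set.sdiff_subset) fun f hf => hle n f (hS n hf.1)
    have h7 : 0 ≤ ∑ᶠ f ∈ S n \ Irr F n, ((Sel f).ncard : ℝ) :=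
      finsum_nonneg fun f => finsum_nonneg fun _ => Nat.cast_nonneg _
    have h8 := hN n hn
    linarith
  refine ⟨fun n f hf => (hA n).2.2 f hf, ?_, ?_⟩
  · refine avg_of hfin ⟨0, fun n _ => (hA n).2.1⟩ ?_ (hgen _ (fun n => subset_rfl) (hRKR F h2))
    intro ε hε
    obtain ⟨N₁, hN₁⟩ := hLMU F h2 ε hε
    obtain ⟨N₂, hN₂⟩ := hLML F h2 ε hε
    exact ⟨max N₁ N₂, fun n hn => ⟨hN₂ n ((le_max_right _ _).trans hn),
      (hN₁ n ((le_max_left _ _).trans hn)).2.2⟩⟩
  · intro h3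
    have hq : (2 : ℝ) ≤ Nat.card F := by
      have hF : 1 < Nat.card F := Finite.one_lt_card
      exact_mod_cast hF
    have hq0 : (0 : ℝ) < Nat.card F := by linarith
    have hshtfin : ∀ n, (Sht F n).Finite := fun n => (hfin n).subset fun f hf => hf.1
    have hshtE : ∀ n, Sht F n ⊆ Ell F n := fun n f hf => hf.1
    have hshmS : ∀ n, ShtM F n ⊆ Sht F n := fun n f hf => hf.1
    have hshmfin : ∀ n, (ShtM F n).Finite := fun n => (hshtfin n).subset (hshmS n)
    -- invariance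
    have hcard : ∀ n, ((Ell F n).ncard : ℝ) = (Nat.card F : ℝ) ^ (2 * n + 1) * (Sht F n).ncard := by
      intro n
      have := (hSHC F h2 h3 (fun _ => 1) (fun _ _ _ _ => rfl) n).2
      rwa [finsum_mem_const (hfin n), finsum_mem_const (hshtfin n), mul_one, mul_one] at this
    have hSelinv : ∀ (f f' : F[X] × F[X] × F[X]) (l r : F[X]), l ≠ 0 → Subs l r f f' →
        ((Sel f).ncard : ℝ) = (Sel f').ncard := fun f f' l r hl hs => by
      rw [(hSHI F f f' l r hl hs).1]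
    have hsum : ∀ n, ∑ᶠ f ∈ Ell F n, ((Sel f).ncard : ℝ) =
        (Nat.card F : ℝ) ^ (2 * n + 1) * ∑ᶠ f ∈ Sht F n, ((Sel f).ncard : ℝ) := fun n =>
      (hSHC F h2 h3 (fun f => ((Sel f).ncard : ℝ))
        (fun f f' r hs => hSelinv f f' 1 r one_ne_zero hs) n).2
    have hShtavg : ∀ ε : ℝ, 0 < ε → ∃ N : ℕ, ∀ n : ℕ, N ≤ n →
        (3 - ε) * (Sht F n).ncard ≤ ∑ᶠ f ∈ Sht F n, ((Sel f).ncard : ℝ) ∧
        ∑ᶠ f ∈ Sht F n, ((Sel f).ncard : ℝ) ≤ (3 + ε) * (Sht F n).ncard := by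
      intro ε hε
      obtain ⟨N₁, hN₁⟩ := hLMU F h2 ε hε
      obtain ⟨N₂, hN₂⟩ := hLML F h2 ε hε
      refine ⟨max N₁ N₂, fun n hn => ?_⟩
      have h5 := hN₂ n ((le_max_right _ _).trans hn)
      have h6 := (hN₁ n ((le_max_left _ _).trans hn)).2.2
      rw [hsum, hcard] at h5 h6
      have hqn : (0 : ℝ) < (Nat.card F : ℝ) ^ (2 * n + 1) := by positivity
      constructor
      · refine le_of_mul_le_mul_left ?_ hqn
        linarith
      · refine le_of_mul_le_mul_left ?_ hqn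
        linarith
    -- reducible cubics
    have hShtred : ∀ ε : ℝ, 0 < ε → ∃ N : ℕ, ∀ n : ℕ, N ≤ n →
        ∑ᶠ f ∈ Sht F n \ Irr F n, (Nat.card (Mod2 (EK f)) : ℝ) ≤ ε * (Sht F n).ncard := by
      intro ε hε
      obtain ⟨N, hN⟩ := hRKR F h2 ε hε
      refine ⟨N, fun n hn => ?_⟩
      have h5 := hN n hn
      have hkey := (hSHC F h2 h3
        (fun f => if Irreducible (cubK f) then (0 : ℝ) else (Nat.card (Mod2 (EK f)) : ℝ))
        (fun f f' r hs => by
          have h7 := (hSHI F f f' 1 r one_ne_zero hs).2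
          obtain ⟨e⟩ := hSHP F h2 f f' 1 r one_ne_zero hs
          have h8 : Nat.card (Mod2 (EK f)) = Nat.card (Mod2 (EK f')) := by
            refine Nat.card_congr (QuotientAddGroup.congr _ _ e ?_).toEquiv
            ext x
            constructor
            · rintro ⟨y, ⟨z, rfl⟩, rfl⟩
              exact ⟨e z, by simp⟩
            · rintro ⟨z, rfl⟩
              exact ⟨nsmulAddMonoidHom 2 (e.symm z), ⟨e.symm z, rfl⟩, by simp⟩
          show (if Irreducible (cubK f) then (0 : ℝ) else (Nat.card (Mod2 (EK f)) : ℝ)) =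
            if Irreducible (cubK f') then (0 : ℝ) else (Nat.card (Mod2 (EK f')) : ℝ)
          rw [h8]
          simp only [h7]) n).2
      have hconv : ∀ S : Set (F[X] × F[X] × F[X]), S ⊆ Ell F n →
          ∑ᶠ f ∈ S, (if Irreducible (cubK f) then (0 : ℝ) else (Nat.card (Mod2 (EK f)) : ℝ)) =
            ∑ᶠ f ∈ S \ Irr F n, (Nat.card (Mod2 (EK f)) : ℝ) := by
        intro S hS
        have hSf : S.Finite := (hfin n).subset hS
        have hsub : S ∩ Irr F n ⊆ S := Set.inter_subset_left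
        have hd : S \ (S ∩ Irr F n) = S \ Irr F n := by
          ext f
          simp
        rw [finsum_mem_split hSf hsub, hd]
        have e1 : ∑ᶠ f ∈ S ∩ Irr F n,
            (if Irreducible (cubK f) then (0 : ℝ) else (Nat.card (Mod2 (EK f)) : ℝ)) = 0 := by
          have e0 : ∑ᶠ f ∈ S ∩ Irr F n,
              (if Irreducible (cubK f) then (0 : ℝ) else (Nat.card (Mod2 (EK f)) : ℝ)) =
              ∑ᶠ f ∈ S ∩ Irr F n, (0 : ℝ) := by
            refine finsum_mem_congr rfl fun f hf => ?_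
            rw [if_pos hf.2.2.1]
          rw [e0]
          simp
        rw [e1, zero_add]
        refine finsum_mem_congr rfl fun f hf => ?_
        have : ¬ Irreducible (cubK f) := fun h =>
          hf.2 ⟨(hS hf.1).1, h, hsep f (hS hf.1).2⟩
        rw [if_neg this]
      rw [hconv _ subset_rfl, hconv _ (hshtE n)] at hkey
      rw [hkey, hcard] at h5
      have hqn : (0 : ℝ) < (Nat.card F : ℝ) ^ (2 * n + 1) := by positivity
      refine le_of_mul_le_mul_left ?_ hqn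
      linarith
    have hShtne : ∀ n, (0 : ℝ) < (Sht F n).ncard := by
      intro n
      have h5 : (0 : ℝ) < (Nat.card F : ℝ) ^ (10 * n + 2) / 4 := by positivity
      exact h5.trans_le ((hSHM F h2 h3).2 n).1
    -- minimal equations
    have hlow : ∀ n, (Nat.card F : ℝ) ^ (10 * (n + 2) + 2) / 8 ≤ (ShtM F (n + 2)).ncard := by
      intro n
      have h5 := (hSHM F h2 h3).1 (fun _ => 1) (fun _ _ _ _ _ => rfl) n
      rw [finsum_mem_const (hshmfin _), finsum_mem_const (hshtfin _),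
        finsum_mem_const (hshtfin _), finsum_mem_const (hshtfin _), mul_one, mul_one, mul_one,
        mul_one] at h5
      have h6 := ((hSHM F h2 h3).2 (n + 2)).1
      have h7 := ((hSHM F h2 h3).2 (n + 1)).2
      have h8 : (0 : ℝ) ≤ (Sht F n).ncard := Nat.cast_nonneg _
      rw [h5]
      set q : ℝ := (Nat.card F : ℝ) with hqdef
      have h9 : q ^ (10 * (n + 2) + 2) = q ^ (10 * (n + 1) + 2) * q ^ 10 := by
        rw [← pow_add]
        congr 1
      have h10 : (q + 1) * 8 ≤ q ^ 10 := by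
        have h11 : (2 : ℝ) ^ 9 ≤ q ^ 9 := pow_le_pow_left₀ (by norm_num) hq 9
        have h12 : q ^ 10 = q ^ 9 * q := by ring
        rw [h12]
        nlinarith
      have h13 : (0 : ℝ) < q ^ (10 * (n + 1) + 2) := by positivity
      have h14 : 0 ≤ q * (Sht F n).ncard := by positivity
      have h15 : (q + 1) * ((Sht F (n + 1)).ncard : ℝ) ≤ (q + 1) * q ^ (10 * (n + 1) + 2) :=
        mul_le_mul_of_nonneg_left h7 (by linarith)
      have h16 : q ^ (10 * (n + 1) + 2) * ((q + 1) * 8) ≤ q ^ (10 * (n + 1) + 2) * q ^ 10 :=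
        mul_le_mul_of_nonneg_left h10 h13.le
      rw [h9] at h6 ⊢
      linarith
    have hupp : ∀ n, ((Sht F (n + 2)).ncard : ℝ) + (Nat.card F + 1) * (Sht F (n + 1)).ncard +
        Nat.card F * (Sht F n).ncard ≤ 24 * (ShtM F (n + 2)).ncard := by
      intro n
      have h5 := hlow n
      have h6 := ((hSHM F h2 h3).2 (n + 2)).2
      have h7 := ((hSHM F h2 h3).2 (n + 1)).2
      have h8 := ((hSHM F h2 h3).2 n).2
      set q : ℝ := (Nat.card F : ℝ) with hqdef
      have h9 : q ^ (10 * (n + 2) + 2) = q ^ (10 * n + 2) * q ^ 20 := by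
        rw [← pow_add]
        congr 1
      have h9' : q ^ (10 * (n + 1) + 2) = q ^ (10 * n + 2) * q ^ 10 := by
        rw [← pow_add]
        congr 1
      have h13 : (0 : ℝ) < q ^ (10 * n + 2) := by positivity
      have h10 : (q + 1) * q ^ 10 + q ≤ 2 * q ^ 20 := by
        have h11 : (2 : ℝ) ^ 9 ≤ q ^ 9 := pow_le_pow_left₀ (by norm_num) hq 9
        have h12 : q ^ 20 = q ^ 10 * (q ^ 9 * q) := by ring
        have h14 : (1 : ℝ) ≤ q ^ 10 := one_le_pow₀ (by linarith)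
        have h15 : 512 * q ≤ q ^ 9 * q := by nlinarith
        rw [h12]
        nlinarith
      rw [h9] at h5 h6
      rw [h9'] at h7
      have h15 : (q + 1) * ((Sht F (n + 1)).ncard : ℝ) ≤
          (q + 1) * (q ^ (10 * n + 2) * q ^ 10) := mul_le_mul_of_nonneg_left h7 (by linarith)
      have h16 : q * ((Sht F n).ncard : ℝ) ≤ q * q ^ (10 * n + 2) :=
        mul_le_mul_of_nonneg_left h8 (by linarith)
      have h17 : q ^ (10 * n + 2) * ((q + 1) * q ^ 10 + q) ≤ q ^ (10 * n + 2) * (2 * q ^ 20) :=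
        mul_le_mul_of_nonneg_left h10 h13.le
      linarith
    refine ⟨avg_of hshtfin ⟨0, fun n _ => ?_⟩ hShtavg (hgen _ hshtE hShtred),
      avg_of hshmfin ⟨2, fun n hn => ?_⟩ ?_ (hgen _ (fun n => (hshmS n).trans (hshtE n)) ?_)⟩
    · exact Set.nonempty_of_ncard_ne_zero (by
        have := hShtne n
        intro h
        rw [h] at this
        simp at this)
    · obtain ⟨k, rfl⟩ := Nat.exists_eq_add_of_le hn
      rw [add_comm 2 k]
      have h5 := hlow k
      have h6 : (0 : ℝ) < (Nat.card F : ℝ) ^ (10 * (k + 2) + 2) / 8 := by positivity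
      exact Set.nonempty_of_ncard_ne_zero (by
        intro h
        rw [h] at h5
        simp at h5
        linarith)
    · intro ε hε
      obtain ⟨N, hN⟩ := hShtavg (ε / 24) (by linarith)
      refine ⟨N + 2, fun n hn => ?_⟩
      obtain ⟨k, rfl⟩ := Nat.exists_eq_add_of_le (show 2 ≤ n by omega)
      rw [add_comm 2 k] at hn ⊢
      have e1 := (hSHM F h2 h3).1 (fun _ => 1) (fun _ _ _ _ _ => rfl) k
      rw [finsum_mem_const (hshmfin _), finsum_mem_const (hshtfin _),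
        finsum_mem_const (hshtfin _), finsum_mem_const (hshtfin _), mul_one, mul_one, mul_one,
        mul_one] at e1
      have e2 := (hSHM F h2 h3).1 (fun f => ((Sel f).ncard : ℝ))
        (fun f f' l hl hs => hSelinv f f' l 0 hl.ne_zero hs) k
      have e3 := hupp k
      obtain ⟨a1, a2⟩ := hN (k + 2) (by omega)
      obtain ⟨b1, b2⟩ := hN (k + 1) (by omega)
      obtain ⟨c1, c2⟩ := hN k (by omega)
      have hq1 : (0 : ℝ) ≤ (Nat.card F : ℝ) + 1 := by linarith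
      have b1' := mul_le_mul_of_nonneg_left b1 hq1
      have b2' := mul_le_mul_of_nonneg_left b2 hq1
      have c1' := mul_le_mul_of_nonneg_left c1 hq0.le
      have c2' := mul_le_mul_of_nonneg_left c2 hq0.le
      have e4 := mul_le_mul_of_nonneg_left e3 (show 0 ≤ ε / 24 by linarith)
      rw [e2]
      constructor
      · linarith
      · linarith
    · intro ε hε
      obtain ⟨N, hN⟩ := hShtred (ε / 24) (by linarith)
      refine ⟨N + 2, fun n hn => ?_⟩
      obtain ⟨k, rfl⟩ := Nat.exists_eq_add_of_le (show 2 ≤ n by omega)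
      rw [add_comm 2 k] at hn ⊢
      have h5 := hN (k + 2) (by omega)
      have h6 : ∑ᶠ f ∈ ShtM F (k + 2) \ Irr F (k + 2), (Nat.card (Mod2 (EK f)) : ℝ) ≤
          ∑ᶠ f ∈ Sht F (k + 2) \ Irr F (k + 2), (Nat.card (Mod2 (EK f)) : ℝ) :=
        finsum_mem_mono_set ((hshtfin _).subset Set.sdiff_subset)
          (Set.sdiff_subset_sdiff_left (hshmS _)) fun f _ => Nat.cast_nonneg _
      have h7 := hupp k
      have h8 : (0 : ℝ) ≤ (Sht F (k + 1)).ncard := Nat.cast_nonneg _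
      have h9 : (0 : ℝ) ≤ (Sht F k).ncard := Nat.cast_nonneg _
      have h10 : (0 : ℝ) ≤ ((Nat.card F : ℝ) + 1) * (Sht F (k + 1)).ncard :=
        mul_nonneg (by linarith) h8
      have h11 : (0 : ℝ) ≤ (Nat.card F : ℝ) * (Sht F k).ncard := mul_nonneg hq0.le h9
      have h12 : ((Sht F (k + 2)).ncard : ℝ) ≤ 24 * (ShtM F (k + 2)).ncard := by linarith
      have h13 := mul_le_mul_of_nonneg_left h12 (show 0 ≤ ε / 24 by linarith)
      linarith

end Pool.AVS
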