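import Pool.Agent.H14.AVS.Defs

/-!
# AVS: statements of the modules, part 1 (algebra over a field)
-/

set_option autoImplicit false

namespace Pool.AVS

open Polynomial Matrix Pool.AVR

/-- SYH: the Gram matrices are symmetric. -/
def SYHStmt : Prop :=
  ∀ (K : Type) [Field K] (a b c : K) (h : K[X]) (G B : Matrix (Fin 3) (Fin 3) K),
    RepH a b c h G B → Gᵀ = G ∧ Bᵀ = B

/-- CHH: base change. -/
def CHHStmt : Prop :=
  ∀ (K : Type) [Field K] (a b c : K) (h : K[X]) (G B g : Matrix (Fin 3) (Fin 3) K),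
    RepH a b c h G B → RepH a b c h (gᵀ * G * g) (gᵀ * B * g)

/-- BSH: two pairs of Gram matrices of the same `h` are related by a base change. -/
def BSHStmt : Prop :=
  ∀ (K : Type) [Field K] (a b c : K) (h : K[X]) (G B G' B' : Matrix (Fin 3) (Fin 3) K),
    RepH a b c h G B → RepH a b c h G' B' → G'.det ≠ 0 →
      ∃ g : Matrix (Fin 3) (Fin 3) K, G = gᵀ * G' * g ∧ B = gᵀ * B' * g

/-- CHI: the characteristic polynomial of `A B`. -/
def CHIStmt : Prop :=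
  ∀ (R : Type) [CommRing R] (B : Matrix (Fin 3) (Fin 3) R), Bᵀ = B →
    (AA R * B).charpoly = cub (ia B) (ib B) (ic B) ∧
    ∀ a b c : R, (AA R * B).charpoly = cub a b c ↔ (ia B = a ∧ ib B = b ∧ ic B = c)

/-- CPH: the invariants of a Gram matrix. -/
def CPHStmt : Prop :=
  ∀ (K : Type) [Field K] (a b c : K) (h : K[X]) (B : Matrix (Fin 3) (Fin 3) K),
    RepH a b c h (AA K) B → ia B = a ∧ ib B = b ∧ ic B = c

/-- INH: the pair determines the class. -/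
def INHStmt : Prop :=
  ∀ (K : Type) [Field K], (2 : K) ≠ 0 → ∀ (a b c : K) (h₁ h₂ : K[X])
    (B : Matrix (Fin 3) (Fin 3) K), RepH a b c h₁ (AA K) B → RepH a b c h₂ (AA K) B →
      ∃ u : K[X], IsCoprime u (cub a b c) ∧ cub a b c ∣ h₁ - h₂ * u ^ 2

/-- TRC: the class is trivial exactly when there is a common isotropic vector. -/
def TRCStmt : Prop :=
  ∀ (K : Type) [Field K], (2 : K) ≠ 0 → ∀ (a b c : K) (h : K[X])
    (B : Matrix (Fin 3) (Fin 3) K), (cub a b c).Separable → RepH a b c h (AA K) B →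
      ((∃ u : K[X], cub a b c ∣ h - u ^ 2) ↔
        ∃ z : Fin 3 → K, z ≠ 0 ∧ bil (AA K) z z = 0 ∧ bil B z z = 0)

/-- EXH: every symmetric matrix is the Gram matrix of a class. -/
def EXHStmt : Prop :=
  ∀ (K : Type) [Field K] (B : Matrix (Fin 3) (Fin 3) K), Bᵀ = B →
    (cub (ia B) (ib B) (ic B)).Separable →
    ∃ h : K[X], IsCoprime h (cub (ia B) (ib B) (ic B)) ∧
      RepH (ia B) (ib B) (ic B) h (AA K) B

/-- NGH: Gram determinants are norms. -/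
def NGHStmt : Prop :=
  ∀ (K : Type) [Field K] (a b c : K) (h : K[X]),
    RepH a b c h (gr0 a b c h) (gr1 a b c h) ∧
    (gr0 a b c h).det = -Algebra.norm K (AdjoinRoot.mk (cub a b c) h) ∧
    ∀ B : Matrix (Fin 3) (Fin 3) K, RepH a b c h (AA K) B →
      IsCoprime h (cub a b c) ∧ IsSquare (Algebra.norm K (AdjoinRoot.mk (cub a b c) h))

/-- PTB: the explicit matrix of a point. -/
def PTBStmt : Prop :=
  ∀ (K : Type) [Field K], (2 : K) ≠ 0 → ∀ a b c x y : K, OnC a b c x y →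
    ((BP a b x y)ᵀ = BP a b x y ∧ ia (BP a b x y) = a ∧ ib (BP a b x y) = b ∧
      ic (BP a b x y) = c) ∧
    (y ≠ 0 → ∀ (h s : K[X]), cub a b c ∣ (C x - X) - h * s ^ 2 →
      RepH a b c h (AA K) (BP a b x y))

/-- SOL: a point of the covering gives a point of the curve, apart from finitely many
exceptions. -/
def SOLStmt : Prop :=
  ∀ (K : Type) [Field K], (2 : K) ≠ 0 → ∀ (a b c : K) (h : K[X])
    (B : Matrix (Fin 3) (Fin 3) K), (cub a b c).Separable → RepH a b c h (AA K) B →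
    ∃ Z : Set K, Z.Finite ∧ ∀ s w : K, s ∉ Z → w ≠ 0 → w ^ 2 = -bil B (zz 1 s) (zz 1 s) →
      LocSol a b c h

/-- ISV: isotropic vectors. -/
def ISVStmt : Prop :=
  ∀ (K : Type) [Field K], (2 : K) ≠ 0 →
    (∀ r s : K, bil (AA K) (zz r s) (zz r s) = 0) ∧
    (∀ r s r' s' : K, bil (AA K) (zz r s) (zz r' s') = -(r * s' - r' * s) ^ 2 / 2) ∧
    (∀ z : Fin 3 → K, z ≠ 0 → bil (AA K) z z = 0 →
      ∃ t r s : K, t ≠ 0 ∧ (r ≠ 0 ∨ s ≠ 0) ∧ z = t • zz r s) ∧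
    (∀ z z' : Fin 3 → K, z ≠ 0 → z' ≠ 0 → bil (AA K) z z = 0 → bil (AA K) z' z' = 0 →
      bil (AA K) z z' = 0 → ∃ t : K, t ≠ 0 ∧ z' = t • z)

/-- DIX: the difference of two points of the covering exists. -/
def DIXStmt : Prop :=
  ∀ (K : Type) [Field K], (2 : K) ≠ 0 → ∀ (B : Matrix (Fin 3) (Fin 3) K) (z z' : Fin 3 → K)
    (w w' : K), Bᵀ = B → Cov B z w → Cov B z' w' → bil (AA K) z z' ≠ 0 →
      ∃ x y : K, Dif B z w z' w' x y ∧ OnC (ia B) (ib B) (ic B) x y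

/-- SLP: the slope of the line through two differences. -/
def SLPStmt : Prop :=
  ∀ (K : Type) [Field K], (2 : K) ≠ 0 → ∀ (B : Matrix (Fin 3) (Fin 3) K)
    (z₀ z₁ z₂ : Fin 3 → K) (w₀ w₁ w₂ x₁ y₁ x₂ y₂ : K), Bᵀ = B →
    Cov B z₀ w₀ → Cov B z₁ w₁ → Cov B z₂ w₂ →
    Dif B z₀ w₀ z₁ w₁ x₁ y₁ → Dif B z₀ w₀ z₂ w₂ x₂ y₂ →
    (∀ x y : K, Dif B z₁ w₁ z₂ w₂ x y →
      (y₁ + y₂) ^ 2 = (x₁ - x₂) ^ 2 * (ia B + x₁ + x₂ + x)) ∧
    (w₁ ≠ 0 → z₂ = z₁ → w₂ = -w₁ →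
      (y₁ + y₂) ^ 2 = (x₁ - x₂) ^ 2 * (x₁ + x₂ + bil (B * AA K * B) z₁ z₁ / w₁ ^ 2))

/-- TOR: translation of a point of the covering by a point of the curve, apart from finitely many
exceptions. -/
def TORStmt : Prop :=
  ∀ (K : Type) [Field K], (2 : K) ≠ 0 → ∀ (B : Matrix (Fin 3) (Fin 3) K) (z₀ : Fin 3 → K)
    (w₀ : K), Bᵀ = B → Cov B z₀ w₀ → w₀ ≠ 0 →
    ∃ Z : Set K, Z.Finite ∧ ∀ x y : K, OnC (ia B) (ib B) (ic B) x y → x ∉ Z →
      ∃ (z : Fin 3 → K) (w : K), Cov B z w ∧ w ≠ 0 ∧ Dif B z₀ w₀ z w x y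

/-- DEQ: equivariance and scaling. -/
def DEQStmt : Prop :=
  ∀ (K : Type) [Field K] (B g : Matrix (Fin 3) (Fin 3) K), Bᵀ = B → gᵀ * AA K * g = AA K →
    (ia (gᵀ * B * g) = ia B ∧ ib (gᵀ * B * g) = ib B ∧ ic (gᵀ * B * g) = ic B) ∧
    (∀ (z : Fin 3 → K) (w : K), Cov (gᵀ * B * g) z w ↔ Cov B (g *ᵥ z) w) ∧
    (g.det = 1 → ∀ (z z' : Fin 3 → K) (w w' x y : K),
      Dif (gᵀ * B * g) z w z' w' x y ↔ Dif B (g *ᵥ z) w (g *ᵥ z') w' x y) ∧
    (∀ (z z' : Fin 3 → K) (w w' x y t t' : K), t ≠ 0 → t' ≠ 0 →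
      (Dif B (t • z) (t * w) (t' • z') (t' * w') x y ↔ Dif B z w z' w' x y)) ∧
    (∀ (z : Fin 3 → K) (w t : K), t ≠ 0 → (Cov B (t • z) (t * w) ↔ Cov B z w))

/-- CON: a second quadratic form has at most four common zeros with the cone, unless it is a
multiple. -/
def CONStmt : Prop :=
  ∀ (K : Type) [Field K], (2 : K) ≠ 0 → ∀ Q : Matrix (Fin 3) (Fin 3) K, Qᵀ = Q →
    (¬ ∃ μ : K, Q = μ • AA K) →
    ({s : K | bil Q (zz 1 s) (zz 1 s) = 0}).Finite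

/-- DBL: a symmetric matrix which differs from a multiple of `A` by a form of rank one has a
multiple eigenvalue. -/
def DBLStmt : Prop :=
  ∀ (K : Type) [Field K], (2 : K) ≠ 0 → ∀ (B : Matrix (Fin 3) (Fin 3) K) (l : Fin 3 → K)
    (ν μ : K), Bᵀ = B → B = ν • Matrix.of (fun i j => l i * l j) + μ • AA K → dB B = 0

end Pool.AVS
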