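import Pool.Agent.H1.AVS.CHH
import Pool.Agent.H1.AVS.DEQ
import Pool.Agent.H1.AVS.LCU
import Pool.Agent.H1.AVS.SHI
import Pool.Agent.H1.AVS.TRC
import Pool.Agent.H11.AVS.SOL
import Pool.Agent.H12.AVS.CONE
import Pool.Agent.H12.AVS.ISV
import Pool.Agent.H12.AVS.LLG
import Pool.Agent.H15.AVS.LVF
import Pool.Agent.H15.AVS.SHC
import Pool.Agent.H15.AVS.TRV
import Pool.Agent.H16.AVS.CLE
import Pool.Agent.H16.AVS.EMB
import Pool.Agent.H16.AVS.SEH
import Pool.Agent.H16.AVS.TB2
import Pool.Agent.H17.AVS.KYS
import Pool.Agent.H17.AVS.LAC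
import Pool.Agent.H18.AVS.TB7
import Pool.Agent.H19.AVS.TB3
import Pool.Agent.H19.AVS.TBL
import Pool.Agent.H20.AVS.SHP
import Pool.Agent.H23.AVS.TRN
import Pool.Agent.H23.AVS.UNQ
import Pool.Agent.H26.AVS.WLL
import Pool.Agent.H27.AVS.LML
import Pool.Agent.H28.AVS.LMU
import Pool.Agent.H28.AVS.TB4
import Pool.Agent.H29.AVS.FDN
import Pool.Agent.H29.AVS.INH
import Pool.Agent.H29.AVS.TRL
import Pool.Agent.H31.AVS.EQP
import Pool.Agent.H33.AVS.EXH
import Pool.Agent.H33.AVS.NGH
import Pool.Agent.H33.AVS.TRS
import Pool.Agent.H35.AVS.NR2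
import Pool.Agent.H36.AVS.DIX
import Pool.Agent.H37.AVS.EBU
import Pool.Agent.H40.AVS.HSM
import Pool.Agent.H43.AVS.CPI
import Pool.Agent.H44.AVS.MUQ
import Pool.Agent.H5.AVS.GLB
import Pool.Agent.H5.AVS.RIP
import Pool.Agent.H53.AVS.CPP
import Pool.Agent.H55.AVS.MAS
import Pool.Agent.H57.AVS.CPH
import Pool.Agent.H57.AVS.PTB
import Pool.Agent.H57.AVS.SHM
import Pool.Agent.H61.AVS.SLP
import Pool.Agent.H61.AVS.TB1
import Pool.Agent.H62.AVS.TOR
import Pool.Agent.H64.AVS.UNI
import Pool.Agent.H65.AVS.DS1
import Pool.Agent.H65.AVS.DS2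
import Pool.Agent.H65.AVS.SYH
import Pool.Agent.H68.AVS.LCL
import Pool.Agent.H69.AVS.POL
import Pool.Agent.H69.AVS.TRA
import Pool.Agent.H7.AVS.DBL
import Pool.Agent.H70.AVS.LTO
import Pool.Agent.H77.AVS.BIN
import Pool.Agent.H77.AVS.RKR
import Pool.Agent.H80.AVS.GLU
import Pool.Agent.H81.AVS.LUG
import Pool.Agent.H81.AVS.TB5
import Pool.Agent.H83.AVS.LDE
import Pool.Agent.H83.AVS.NFO
import Pool.Agent.H84.AVS.GRE
import Pool.Agent.H85.AVS.APX
import Pool.Agent.H85.AVS.BDN
import Pool.Agent.H87.AVS.BSH
import Pool.Agent.H87.AVS.CHI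
import Pool.Agent.H89.AVS.WUN
import Pool.Agent.H91.AVS.WUW
import Pool.Agent.H98.AVS.RII
import Pool.Agent.H15.AVR.STAB
import Pool.Agent.H2.AVR.AAV
import Pool.Agent.H2.AVR.BIR
import Pool.Agent.H2.AVR.NRM
import Pool.Agent.H2.AVR.RNK
import Pool.Agent.H25.AVR.DSC
import Pool.Agent.H25.AVR.NUM
import Pool.Agent.H29.AVR.LDC
import Pool.Agent.H29.AVR.LDN
import Pool.Agent.H33.AVR.CHP
import Pool.Agent.H33.AVR.DE5
import Pool.Agent.H33.AVR.INJ
import Pool.Agent.H33.AVR.RED
import Pool.Agent.H33.AVR.TA5
import Pool.Agent.H4.AVR.DEN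
import Pool.Agent.H4.AVR.ICB
import Pool.Agent.H45.AVR.CHB
import Pool.Agent.H45.AVR.SYB
import Pool.Agent.H46.AVR.BAS
import Pool.Agent.H46.AVR.HOM
import Pool.Agent.H49.AVR.GRP
import Pool.Agent.H57.AVR.LDB
import Pool.Agent.H57.AVR.MWL
import Pool.Agent.H57.AVR.SCL
import Pool.Agent.H58.AVR.KEY
import Pool.Agent.H59.AVR.DNI
import Pool.Agent.H62.AVR.ISO
import Pool.Agent.H62.AVR.PLL
import Pool.Agent.H64.AVR.PRG
import Pool.Agent.H64.AVR.ST1
import Pool.Agent.H64.AVR.TOP
import Pool.Agent.H65.AVR.LAT
import Pool.Agent.H65.AVR.LDT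
import Pool.Agent.H65.AVR.STE
import Pool.Agent.H74.AVR.EQF
import Pool.Agent.H74.AVR.LDA
import Pool.Agent.H75.AVR.LN2
import Pool.Agent.H75.AVR.SFI
import Pool.Agent.H82.AVR.LDP
import Pool.Agent.H83.AVR.DNG
import Pool.Agent.H83.AVR.EQB
import Pool.Agent.H83.AVR.ST4
import Pool.Agent.H85.AVR.KER
import Pool.Agent.H86.AVR.DEL
import Pool.Agent.H86.AVR.TAI
import Pool.Agent.H87.AVR.ZET
import Pool.Agent.H95.AVR.ACT
import Pool.Agent.H95.AVR.CNF
import Pool.Agent.H96.AVR.ST2
import Pool.Agent.H99.AVR.CNB
import Pool.Agent.H99.AVR.FIN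
import Pool.Agent.H14.AVR.Final
import Pool.Agent.H14.AVS.Final2

/-!
# AVS: all modules together
-/

set_option autoImplicit false

namespace Pool.AVS

open Pool.AVR Pool.Agent.H70.AVS Pool.Agent.H44.AVS Pool.Agent.H16.AVS

/-- The final statement for every finite field of odd order. -/
theorem mainAll (F : Type) [Field F] [Finite F] (h2 : (2 : F) ≠ 0) : MainAll F := by
  have hKER : KERStmt := by
    apply KER_thm <;> assumption
  have hHOM : HOMStmt := by
    apply hom_thm <;> assumption
  have hINJ : INJStmt := by
    apply inj_thm <;> assumption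
  have hISO : ISOStmt := by
    apply iso_thm <;> assumption
  have hCHP : CHPStmt := by
    apply chp_thm <;> assumption
  have hSYB : SYBStmt := by
    apply syb_thm <;> assumption
  have hCHB : CHBStmt := by
    apply chb_thm <;> assumption
  have hBAS : BASStmt := by
    apply bas_thm <;> assumption
  have hSTAB : STABStmt := by
    apply STAB_thm <;> assumption
  have hLAT : LATStmt := by
    apply lat_thm <;> assumption
  have hSCL : SCLStmt := by
    apply scl_thm <;> assumption
  have hDEN : DENStmt := by
    apply den_thm <;> assumption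
  have hDNI : DNIStmt := by
    apply dni_thm <;> assumption
  have hBIR : BIRStmt := by
    apply bir_thm <;> assumption
  have hNRM : NRMStmt := by
    apply nrm_thm <;> assumption
  have hKEY : KEYStmt := by
    apply key_thm <;> assumption
  have hGRP : GRPStmt := by
    apply grp_thm <;> assumption
  have hACT : ACTStmt := by
    apply act_thm <;> assumption
  have hCNB : CNBStmt := by
    apply cnb_thm <;> assumption
  have hCNF : CNFStmt := by
    apply cnf_thm <;> assumption
  have hFIN : FINStmt := by
    apply fin_thm <;> assumption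
  have hSTE : STEStmt := by
    apply ste_thm <;> assumption
  have hDSC : DSCStmt := by
    apply DSC_thm <;> assumption
  have hICB : ICBStmt := by
    apply icb_thm <;> assumption
  have hLDP : LDPStmt := by
    apply ldp_thm <;> assumption
  have hEQB : EQBStmt := by
    apply eqb_thm <;> assumption
  have hRED : REDStmt := by
    apply red_thm <;> assumption
  have hRNK : RNKStmt := by
    apply rnk_thm <;> assumption
  have hAAV : AAVStmt := by
    apply aav_thm <;> assumption
  have hPLL : PLLStmt := by
    apply pll_thm <;> assumption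
  have hMWL : MWLStmt := by
    apply mwl_thm <;> assumption
  have hST1 : ST1Stmt := by
    apply st1_thm <;> assumption
  have hST2 : ST2Stmt := by
    apply ST2.st2_thm <;> assumption
  have hLDA : LDAStmt := by
    apply lda_thm <;> assumption
  have hLDB : LDBStmt := by
    apply ldb_thm <;> assumption
  have hLDC : LDCStmt := by
    apply H29.ldc_thm <;> assumption
  have hLDN : LDNStmt := by
    apply H29.ldn_thm <;> assumption
  have hLDT : LDTStmt := by
    apply ldt_thm <;> assumption
  have hLN2 : LN2Stmt := by
    apply ln2_thm <;> assumption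
  have hTOP : TOPStmt := by
    apply top_thm <;> assumption
  have hNUM : NUMStmt := by
    apply NUM_thm <;> assumption
  have hEQF : EQFStmt := by
    apply eqf_thm <;> assumption
  have hTAI : TAIStmt := by
    apply tai_thm <;> assumption
  have hDEL : DELStmt := by
    apply del_thm <;> assumption
  have hTA5 : TA5Stmt := by
    apply ta5_thm <;> assumption
  have hDE5 : DE5Stmt := by
    apply de5_thm <;> assumption
  have hDNG : DNGStmt := by
    apply dng_thm <;> assumption
  have hPRG : PRGStmt := by
    apply prg_thm <;> assumption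
  have hZET : ZETStmt := by
    apply zet_thm <;> assumption
  have hSFI : SFIStmt := by
    apply sfi_thm <;> assumption
  have hST4 : ST4Stmt := by
    apply st4_thm <;> assumption
  have hSYH : SYHStmt := by
    apply syh_thm <;> assumption
  have hCHH : CHHStmt := by
    apply chh_thm <;> assumption
  have hBSH : BSHStmt := by
    apply bsh_thm <;> assumption
  have hCHI : CHIStmt := by
    apply chi_thm <;> assumption
  have hCPH : CPHStmt := by
    apply cph_thm <;> assumption
  have hINH : INHStmt := by
    apply inh_thm <;> assumption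
  have hEXH : EXHStmt := by
    apply exh_thm <;> assumption
  have hNGH : NGHStmt := by
    apply ngh_thm <;> assumption
  have hPTB : PTBStmt := by
    apply ptb_thm <;> assumption
  have hSOL : SOLStmt := by
    apply sol_thm <;> assumption
  have hISV : ISVStmt := by
    apply isv_thm <;> assumption
  have hDIX : DIXStmt := by
    apply dix_thm <;> assumption
  have hSLP : SLPStmt := by
    apply SLP_thm <;> assumption
  have hDEQ : DEQStmt := by
    apply deq_thm <;> assumption
  have hCON : CONStmt := by
    apply con_thm <;> assumption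
  have hDBL : DBLStmt := by
    apply dbl_thm <;> assumption
  have hTRN : TRNStmt := by
    apply trn_thm <;> assumption
  have hNFO : NFOStmt := by
    apply nfo_thm <;> assumption
  have hLTO : LTOStmt := by
    apply lto_thm <;> assumption
  have hDS1 : DS1Stmt := by
    apply ds1_thm <;> assumption
  have hDS2 : DS2Stmt := by
    apply ds2_thm <;> assumption
  have hUNI : UNIStmt := by
    apply uni_thm <;> assumption
  have hHSM : HSMStmt := by
    apply hsm_thm <;> assumption
  have hEBU : EBUStmt := by
    apply ebu_thm <;> assumption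
  have hEBW : EBWStmt := by
    apply ebw_thm <;> assumption
  have hLCL : LCLStmt := by
    apply lcl_thm <;> assumption
  have hUNQ : UNQStmt := by
    apply unq_thm <;> assumption
  have hTRS : TRSStmt := by
    apply trs_thm <;> assumption
  have hCPP : CPPStmt := by
    apply cpp_thm <;> assumption
  have hCPI : CPIStmt := by
    apply cpi_thm <;> assumption
  have hRIP : RIPStmt := by
    apply rip_thm <;> assumption
  have hRII : RIIStmt := by
    apply rii_thm <;> assumption
  have hAPX : APXStmt := by
    apply apx_thm <;> assumption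
  have hTRA : TRAStmt := by
    apply tra_thm <;> assumption
  have hLLG : LLGStmt := by
    apply llg_thm <;> assumption
  have hLAC : LACStmt := by
    apply lac_thm <;> assumption
  have hGLU : GLUStmt := by
    apply glu_thm <;> assumption
  have hNR2 : NR2Stmt := by
    apply nr2_thm <;> assumption
  have hMUQ : MUQStmt := by
    apply MUQ_thm <;> assumption
  have hPOL : POLStmt := by
    apply pol_thm <;> assumption
  have hCLE : CLEStmt := by
    apply cle_thm <;> assumption
  have hSEH : SEHStmt := by
    apply seh_thm <;> assumption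
  have hEMB : EMBStmt := by
    apply emb_thm <;> assumption
  have hGRE : GREStmt := by
    apply gre_thm <;> assumption
  have hMAS : MASStmt := by
    apply mas_thm <;> assumption
  have hLVF : LVFStmt := by
    apply lvf_thm <;> assumption
  have hBIN : BINStmt := by
    apply bin_thm <;> assumption
  have hEQP : EQPStmt := by
    apply eqp_thm <;> assumption
  have hBDN : BDNStmt := by
    apply bdn_thm <;> assumption
  have hFDN : FDNStmt := by
    apply fdn_thm <;> assumption
  have hTRL : TRLStmt := by
    apply trl_thm <;> assumption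
  have hTRV : TRVStmt := by
    apply trv_thm <;> assumption
  have hLDE : LDEStmt := by
    apply lde_thm <;> assumption
  have hRKR : RKRStmt := by
    apply rkr_thm <;> assumption
  have hTB1 : TB1Stmt := by
    apply TB1_thm <;> assumption
  have hTB2 : TB2Stmt := by
    apply tb2_thm <;> assumption
  have hTB3 : TB3Stmt := by
    apply tb3_thm <;> assumption
  have hTB5 : TB5Stmt := by
    apply tb5_thm <;> assumption
  have hTB7 : TB7Stmt := by
    apply tb7_thm <;> assumption
  have hSHI : SHIStmt := by
    apply shi_thm <;> assumption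
  have hSHP : SHPStmt := by
    apply SHP_thm <;> assumption
  have hSHC : SHCStmt := by
    apply shc_thm <;> assumption
  have hSHM : SHMStmt := by
    apply shm_thm <;> assumption
  have hTRC : TRCStmt := by
    apply trc_thm <;> assumption
  have hTOR : TORStmt := by
    apply tor_thm <;> assumption
  have hLCU : LCUStmt := by
    apply lcu_thm <;> assumption
  have hLUG : LUGStmt := by
    apply lug_thm <;> assumption
  have hGLB : GLBStmt := by
    apply glb_thm <;> assumption
  have hKYS : KYSStmt := by
    apply kys_thm <;> assumption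
  have hWUN : WUNStmt := by
    apply wun_thm <;> assumption
  have hWUW : WUWStmt := by
    apply wuw_thm <;> assumption
  have hWLL : WLLStmt := by
    apply wll_thm <;> assumption
  have hLMU : LMUStmt := by
    apply lmu_thm <;> assumption
  have hTB4 : TB4Stmt := by
    apply tb4_thm <;> assumption
  have hTBL : TBLStmt := by
    apply tbl_thm <;> assumption
  have hLML : LMLStmt := by
    apply lml_thm <;> assumption
  exact mainAll_of hLMU hLML hRKR hEMB hMWL hRNK hDSC hST2 hSHI hSHP hSHC hSHM F h2

end Pool.AVS
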