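import Pool.Agent.H14.AVR.Stmts2

/-!
# The average size of the 2-Selmer group over `F(t)`, `F` finite of odd order: definitions

`K = F(t)`, `f = (a, b, c)` with `a, b, c ∈ F[t]` of degree at most `2n, 4n, 6n`,
`E_f : y² = x³ + a x² + b x + c`.
-/

set_option autoImplicit false

namespace Pool.AVS

open Polynomial Matrix Pool.AVR

section Algebra

/-- The pair `(G, B)` is the pair of Gram matrices of `p, q ↦ τ(p q h)` and
`p, q ↦ τ(X p q h)` for three polynomials `e 0, e 1, e 2`. -/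
def RepH {K : Type} [Field K] (a b c : K) (h : K[X]) (G B : Matrix (Fin 3) (Fin 3) K) : Prop :=
  ∃ e : Fin 3 → K[X], (∀ i j, tau a b c (e i * e j * h) = G i j) ∧
    ∀ i j, tau a b c (X * (e i * e j * h)) = B i j

/-- First invariant of a symmetric matrix: the characteristic polynomial of `A B` is
`X³ + ia B X² + ib B X + ic B`. -/
def ia {R : Type} [CommRing R] (B : Matrix (Fin 3) (Fin 3) R) : R := -(2 * B 0 2 + B 1 1)

/-- Second invariant. -/
def ib {R : Type} [CommRing R] (B : Matrix (Fin 3) (Fin 3) R) : R :=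
  2 * B 0 2 * B 1 1 - 2 * B 1 2 * B 0 1 + B 0 2 ^ 2 - B 2 2 * B 0 0

/-- Third invariant. -/
def ic {R : Type} [CommRing R] (B : Matrix (Fin 3) (Fin 3) R) : R := B.det

/-- The discriminant of the characteristic polynomial of `A B`. -/
noncomputable def dB {R : Type} [CommRing R] (B : Matrix (Fin 3) (Fin 3) R) : R := disc (ia B) (ib B) (ic B)

/-- The bilinear form of a matrix. -/
def bil {R : Type} [CommRing R] (B : Matrix (Fin 3) (Fin 3) R) (u v : Fin 3 → R) : R :=
  u ⬝ᵥ (B *ᵥ v)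

/-- The isotropic vectors of the antidiagonal form. -/
def zz {K : Type} [Field K] (r s : K) : Fin 3 → K := ![r ^ 2, r * s, -(s ^ 2) / 2]

/-- `(z, w)` is a point of the 2-covering `{zᵀ A z = 0, w² = - zᵀ B z}`. -/
def Cov {K : Type} [Field K] (B : Matrix (Fin 3) (Fin 3) K) (z : Fin 3 → K) (w : K) : Prop :=
  z ≠ 0 ∧ bil (AA K) z z = 0 ∧ w ^ 2 = -bil B z z

/-- The difference of the points `(z', w')` and `(z, w)` of the covering is the point `(x, y)` of
the curve. -/
def Dif {K : Type} [Field K] (B : Matrix (Fin 3) (Fin 3) K) (z : Fin 3 → K) (w : K)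
    (z' : Fin 3 → K) (w' : K) (x y : K) : Prop :=
  bil (AA K) z z' ≠ 0 ∧ x * bil (AA K) z z' = bil B z z' - w * w' ∧
    (x • AA K - B) *ᵥ (w' • z + w • z') = y • crossProduct z z'

/-- The symmetric matrix attached to a point `(x, y)` of the curve. -/
def BP {K : Type} [Field K] (a b x y : K) : Matrix (Fin 3) (Fin 3) K :=
  !![-1, 0, -(a + x) / 2; 0, x, -y; -(a + x) / 2, -y, b + (a + x) * x - (a + x) ^ 2 / 4]

/-- The Gram matrix of `1, X, X²` for `p, q ↦ τ(p q h)`. -/
noncomputable def gr0 {K : Type} [Field K] (a b c : K) (h : K[X]) : Matrix (Fin 3) (Fin 3) K :=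
  Matrix.of fun i j => tau a b c (X ^ (i : ℕ) * X ^ (j : ℕ) * h)

/-- The Gram matrix of `1, X, X²` for `p, q ↦ τ(X p q h)`. -/
noncomputable def gr1 {K : Type} [Field K] (a b c : K) (h : K[X]) : Matrix (Fin 3) (Fin 3) K :=
  Matrix.of fun i j => tau a b c (X * (X ^ (i : ℕ) * X ^ (j : ℕ) * h))

/-- Number of solutions of `y² = x³ + a x² + b x + c`. -/
noncomputable def nE (R : Type) [CommRing R] (a b c : R) : ℕ :=
  {p : R × R | p.2 ^ 2 = p.1 ^ 3 + a * p.1 ^ 2 + b * p.1 + c}.ncard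

/-- The class of `h` comes from a point with `y ≠ 0`. -/
def LocSol {L : Type} [Field L] (a b c : L) (h : L[X]) : Prop :=
  ∃ x y : L, OnC a b c x y ∧ y ≠ 0 ∧ ∃ s : L[X], cub a b c ∣ (C x - X) - h * s ^ 2

end Algebra

section Local

/-- Units of a subset `I` of a field (in the applications `I` is a subring). -/
def UI {L : Type} [Field L] (I : Set L) (x : L) : Prop := x ≠ 0 ∧ x ∈ I ∧ x⁻¹ ∈ I

/-- All entries in `I`. -/
def MI {L : Type} [Field L] (I : Set L) (g : Matrix (Fin 3) (Fin 3) L) : Prop :=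
  ∀ i j, g i j ∈ I

/-- Invertible over `I`. -/
def GI {L : Type} [Field L] (I : Set L) (g : Matrix (Fin 3) (Fin 3) L) : Prop :=
  MI I g ∧ UI I g.det

/-- `(z, w)` is, modulo `π`, a smooth point of the covering of the pair of forms `(G, B)`. -/
def Smo {L : Type} [Field L] (I : Set L) (π : L) (G B : Matrix (Fin 3) (Fin 3) L)
    (z : Fin 3 → L) (w : L) : Prop :=
  (∀ i, z i ∈ I) ∧ w ∈ I ∧ (∃ i, z i / π ∉ I) ∧ bil G z z / π ∈ I ∧ (w ^ 2 + bil B z z) / π ∈ I ∧
    ¬ (w / π ∈ I ∧ ∃ μ ∈ I, ∀ i, ((B *ᵥ z) i - μ * (G *ᵥ z) i) / π ∈ I)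

/-- A lattice (spanned by the columns of `g`), unimodular for `A`, stable for `(A, B)`, with a
smooth point `g z` modulo `π`. -/
def KP {L : Type} [Field L] (I : Set L) (π : L) (B : Matrix (Fin 3) (Fin 3) L)
    (g : Matrix (Fin 3) (Fin 3) L) (z : Fin 3 → L) (w : L) : Prop :=
  g.det ≠ 0 ∧ GI I (gᵀ * AA L * g) ∧ MI I (gᵀ * B * g) ∧ Smo I π (gᵀ * AA L * g) (gᵀ * B * g) z w

/-- The same lattice and the same point modulo `π` (up to scaling). -/
def Eqv {L : Type} [Field L] (I : Set L) (π : L) (g : Matrix (Fin 3) (Fin 3) L)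
    (z : Fin 3 → L) (w : L) (g' : Matrix (Fin 3) (Fin 3) L) (z' : Fin 3 → L) (w' : L) : Prop :=
  ∃ κ : Matrix (Fin 3) (Fin 3) L, GI I κ ∧ g' = g * κ ∧ ∃ t : L, UI I t ∧
    (∀ i, ((κ *ᵥ z') i - t * z i) / π ∈ I) ∧ (w' - t * w) / π ∈ I

/-- `O` is a discrete valuation ring with uniformizer `π`, Henselian, with finite residue field
of odd characteristic. -/
structure Loc (L : Type) [Field L] (O : ValuationSubring L) (π : L) : Prop where
  two : (2 : L) ≠ 0 ∧ (2 : L)⁻¹ ∈ O
  pi_ne : π ≠ 0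
  pi_mem : π ∈ O
  unif : ∀ x : L, x ∈ O → x ≠ 0 → (x⁻¹ ∉ O ↔ x / π ∈ O)
  arch : ∀ x : L, x ≠ 0 → ∃ n : ℤ, x / π ^ n ∈ O ∧ (x / π ^ n)⁻¹ ∈ O
  hens : HenselianLocalRing O
  fin : Finite (IsLocalRing.ResidueField O)

/-- The size of the residue field. -/
noncomputable def kap {L : Type} [Field L] (O : ValuationSubring L) : ℕ :=
  Nat.card (IsLocalRing.ResidueField O)

/-- The ring `O / π^N`. -/
abbrev ON {L : Type} [Field L] (O : ValuationSubring L) (N : ℕ) : Type :=
  O ⧸ (IsLocalRing.maximalIdeal O) ^ N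

end Local

section Places

variable (F : Type) [Field F]

/-- `O` is the complete (or Henselian) local ring at the place of `F(t)` with local ring `I` and
uniformizer `ϖ`. -/
structure IsComp (I : Set (RatFunc F)) (ϖ : RatFunc F) (L : Type) [Field L]
    (O : ValuationSubring L) (ι : RatFunc F →+* L) : Prop where
  loc : Loc L O (ι ϖ)
  mem : ∀ x : RatFunc F, ι x ∈ O ↔ x ∈ I
  dense : ∀ (z : L) (N : ℕ), ∃ x : RatFunc F, (z - ι x) / ι ϖ ^ N ∈ O

/-- The rational functions regular at infinity. -/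
def Iinf : Set (RatFunc F) := (OInf F : Set (RatFunc F))

variable {F}

/-- The rational functions regular at `P`. -/
def IP (P : F[X]) : Set (RatFunc F) := {x | ¬ P ∣ x.denom}

/-- Local solubility at a place. -/
def SolAt (I : Set (RatFunc F)) (ϖ : RatFunc F) (f : F[X] × F[X] × F[X])
    (h : (RatFunc F)[X]) : Prop :=
  ∃ (L : Type) (_ : Field L) (O : ValuationSubring L) (ι : RatFunc F →+* L),
    IsComp F I ϖ L O ι ∧
    LocSol (ι (algebraMap F[X] (RatFunc F) f.1)) (ι (algebraMap F[X] (RatFunc F) f.2.1))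
      (ι (algebraMap F[X] (RatFunc F) f.2.2)) (h.map ι)

/-- The coefficients of the curve over `F(t)`. -/
noncomputable def kf (f : F[X] × F[X] × F[X]) : RatFunc F × RatFunc F × RatFunc F :=
  (algebraMap F[X] (RatFunc F) f.1, algebraMap F[X] (RatFunc F) f.2.1,
    algebraMap F[X] (RatFunc F) f.2.2)

/-- The étale algebra `F(t)[X] / (X³ + a X² + b X + c)`. -/
noncomputable abbrev Alg (f : F[X] × F[X] × F[X]) : Type := AdjoinRoot (cubK f)

/-- The squares of the units of the algebra. -/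
noncomputable abbrev Sq (f : F[X] × F[X] × F[X]) : Subgroup (Alg f)ˣ := (powMonoidHom 2 : (Alg f)ˣ →* _).range

/-- Over the extension `L` of `F(t)` the class of `u` is the image of a point `(x, y)`, `y ≠ 0`,
of the curve under `x - X`. -/
def LocAt (L : Type) [Field L] [Algebra (RatFunc F) L] (f : F[X] × F[X] × F[X])
    (u : (Alg f)ˣ) : Prop :=
  ∃ p : (RatFunc F)[X], AdjoinRoot.mk (cubK f) p = (u : Alg f) ∧
    LocSol (algebraMap (RatFunc F) L (kf f).1) (algebraMap (RatFunc F) L (kf f).2.1)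
      (algebraMap (RatFunc F) L (kf f).2.2) (p.map (algebraMap (RatFunc F) L))

open Classical in
/-- The 2-Selmer group of the curve, in the classical description: the classes `u` modulo squares
of square norm such that `u` is at every place of `F(t)` the image of a local point under
`x - X`. -/
def Sel (f : F[X] × F[X] × F[X]) : Set ((Alg f)ˣ ⧸ Sq f) :=
  {ξ | ∃ u : (Alg f)ˣ, QuotientGroup.mk u = ξ ∧
    IsSquare (Algebra.norm (RatFunc F) (u : Alg f)) ∧
    (∀ v : IsDedekindDomain.HeightOneSpectrum F[X], LocAt (v.adicCompletion (RatFunc F)) f u) ∧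
    LocAt (RatFunc.CompletionAtInfty F) f u}

end Places

section Finite

variable {F : Type} [Field F]

/-- The diagonal matrix `(t^(-m), 1, t^m)`. -/
noncomputable def Dm (m : ℕ) : Matrix (Fin 3) (Fin 3) (RatFunc F) :=
  Matrix.diagonal fun i => (RatFunc.X : RatFunc F) ^ dd m i

/-- Smooth points over a ring (in the applications a finite field). -/
def SmF {k : Type} [CommRing k] (B : Matrix (Fin 3) (Fin 3) k) : Set ((Fin 3 → k) × k) :=
  {p | p.1 ≠ 0 ∧ bil (AA k) p.1 p.1 = 0 ∧ p.2 ^ 2 + bil B p.1 p.1 = 0 ∧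
    ¬ (p.2 = 0 ∧ ∃ μ : k, B *ᵥ p.1 = μ • (AA k *ᵥ p.1))}

/-- Symmetric matrices `B` with given characteristic polynomial of `A B`. -/
def Fb {R : Type} [CommRing R] (a b c : R) : Set (Matrix (Fin 3) (Fin 3) R) :=
  {B | Bᵀ = B ∧ ia B = a ∧ ib B = b ∧ ic B = c}

/-- The coefficients at infinity (reversed polynomials). -/
noncomputable def finf (n : ℕ) (f : F[X] × F[X] × F[X]) : F[X] × F[X] × F[X] :=
  (f.1.reflect (2 * n), f.2.1.reflect (4 * n), f.2.2.reflect (6 * n))

/-- The matrix at infinity (reversed entries). -/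
noncomputable def Binf (n m : ℕ) (B : Matrix (Fin 3) (Fin 3) F[X]) :
    Matrix (Fin 3) (Fin 3) F[X] :=
  Matrix.of fun i j => (B i j).reflect (2 * (n : ℤ) + dd m i + dd m j).toNat

/-- The local weight at `P`, level `N`. -/
noncomputable def wt (P : F[X]) (N : ℕ) (B : Matrix (Fin 3) (Fin 3) F[X]) : ℝ :=
  ((SmF (B.map (AdjoinRoot.mk P))).ncard : ℝ) /
    (((Nat.card (AdjoinRoot P) : ℝ) - 1) *
      ((Nat.card (AdjoinRoot P) : ℝ) *
        nE (AdjoinRoot (P ^ N)) (AdjoinRoot.mk (P ^ N) (ia B)) (AdjoinRoot.mk (P ^ N) (ib B))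
          (AdjoinRoot.mk (P ^ N) (ic B)) / Nat.card (AdjoinRoot (P ^ N)) + 1))

/-- The product of the local weights at the primes of `S` and at infinity. -/
noncomputable def WS (n m : ℕ) (S : Finset F[X]) (N : ℕ) (B : Matrix (Fin 3) (Fin 3) F[X]) : ℝ :=
  (∏ P ∈ S, wt P N B) * wt X N (Binf n m B)

/-- The class of `B` is trivial. -/
def Triv (B : Matrix (Fin 3) (Fin 3) F[X]) : Prop :=
  ∃ z : Fin 3 → F[X], z ≠ 0 ∧ bil (AA F[X]) z z = 0 ∧ bil B z z = 0

/-- A lift to polynomials. -/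
noncomputable def lft {M : F[X]} (x : AdjoinRoot M) : F[X] :=
  Function.surjInv AdjoinRoot.mk_surjective x

end Finite

end Pool.AVS
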