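import Pool.Agent.H14.AVS.S4
import Pool.Agent.H14.AVR.Final

/-!
# AVS: the final statement (average size of the 2-Selmer group) from the modules
-/

set_option autoImplicit false

namespace Pool.AVS

open Polynomial Matrix Pool.AVR

variable (F : Type) [Field F]

open Classical in
/-- The final statement for the finite field `F`. -/
def MainAV : Prop :=
  (∀ n : ℕ, (Ell F n).Finite ∧ (Ell F n).Nonempty ∧ ∀ f ∈ Ell F n,
    (E (algebraMap F[X] (RatFunc F) f.1) (algebraMap F[X] (RatFunc F) f.2.1)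
      (algebraMap F[X] (RatFunc F) f.2.2)).Δ ≠ 0 ∧ AddGroup.FG (EK f) ∧ (Sel f).Finite) ∧
  Filter.Tendsto (fun n : ℕ => (∑ᶠ f ∈ Ell F n, ((Sel f).ncard : ℝ)) / (Ell F n).ncard)
    Filter.atTop (nhds 3) ∧
  ∀ ε : ℝ, 0 < ε → ∃ N : ℕ, ∀ n : ℕ, N ≤ n →
    ∑ᶠ f ∈ Ell F n, (2 : ℝ) ^ rk f ≤ (3 + ε) * (Ell F n).ncard ∧
    ∑ᶠ f ∈ Ell F n, (rk f : ℝ) ≤ (3 / 2 + ε) * (Ell F n).ncard ∧
    (1 / 3 - ε) * (Ell F n).ncard ≤ {f ∈ Ell F n | rk f ≤ 1}.ncard

theorem mainAV_of (hLMU : LMUStmt) (hLML : LMLStmt) (hRKR : RKRStmt) (hEMB : EMBStmt)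
    (hMWL : MWLStmt) (hRNK : RNKStmt) (hDSC : DSCStmt) (hST2 : ST2Stmt)
    (F : Type) [Field F] [Finite F] (h2 : (2 : F) ≠ 0) : MainAV F := by
  classical
  have h2K : (2 : RatFunc F) ≠ 0 := by
    intro h
    apply h2
    have h3 : algebraMap F (RatFunc F) 2 = algebraMap F (RatFunc F) 0 := by
      rw [map_ofNat, map_zero]
      exact h
    exact (algebraMap F (RatFunc F)).injective h3
  have hdiscmap : ∀ f : F[X] × F[X] × F[X],
      disc (algebraMap F[X] (RatFunc F) f.1) (algebraMap F[X] (RatFunc F) f.2.1)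
        (algebraMap F[X] (RatFunc F) f.2.2) = algebraMap F[X] (RatFunc F)
          (disc f.1 f.2.1 f.2.2) := by
    intro f
    simp only [disc, map_add, map_sub, map_mul, map_pow, map_ofNat]
  have hsep : ∀ f : F[X] × F[X] × F[X], (cubK f).Separable ↔ disc f.1 f.2.1 f.2.2 ≠ 0 := by
    intro f
    rw [cubK, (hDSC (RatFunc F) h2K _ _ _).1, hdiscmap]
    exact (map_ne_zero_iff _ (RatFunc.algebraMap_injective F))
  have hIrrEll : ∀ n, Irr F n ⊆ Ell F n := fun n f hf => ⟨hf.1, (hsep f).1 hf.2.2⟩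
  have hmono : ∀ n m : ℕ, n ≤ m → Ell F n ⊆ Ell F m := by
    intro n m hnm f hf
    refine ⟨⟨hf.1.1.trans ?_, hf.1.2.1.trans ?_, hf.1.2.2.trans ?_⟩, hf.2⟩ <;> omega
  have hEllFin : ∀ n, ∀ f ∈ Ell F n, Finite (Mod2 (EK f)) := by
    intro n f hf
    obtain ⟨N, hN⟩ := hST2 F h2 1 one_pos
    exact (hN (max n N) (le_max_right _ _)).2.1 f (hmono _ _ (le_max_left _ _) hf)
  have hEllFG : ∀ n, ∀ f ∈ Ell F n, AddGroup.FG (EK f) := fun n f hf =>
    hMWL F h2 f ((hsep f).2 hf.2) (hEllFin n f hf)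
  have hle : ∀ n, ∀ f ∈ Ell F n, (2 : ℝ) ^ rk f ≤ Nat.card (Mod2 (EK f)) := by
    intro n f hf
    have := (hRNK (EK f) (hEllFG n f hf)).2.1
    exact_mod_cast this
  have hfin : ∀ n, (Ell F n).Finite := by
    intro n
    obtain ⟨N, hN⟩ := hLMU F h2 1 one_pos
    exact (hN (max n N) (le_max_right _ _)).1.subset (hmono _ _ (le_max_left _ _))
  have hSel : ∀ n, ∀ f ∈ Ell F n, (Sel f).Finite := by
    intro n f hf
    obtain ⟨N, hN⟩ := hLMU F h2 1 one_pos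
    exact (hN (max n N) (le_max_right _ _)).2.1 f (hmono _ _ (le_max_left _ _) hf)
  have hne : ∀ n, (Ell F n).Nonempty := by
    intro n
    refine ⟨((0 : F[X]), (-1 : F[X]), (0 : F[X])), ⟨by simp, by simp, by simp⟩, ?_⟩
    have h4 : disc (0 : F[X]) (-1) 0 = C ((2 : F) ^ 2) := by
      rw [map_pow, map_ofNat]
      unfold disc
      ring
    show disc (0 : F[X]) (-1) 0 ≠ 0
    rw [h4]
    exact C_ne_zero.2 (pow_ne_zero _ h2)
  have hpos : ∀ n, (0 : ℝ) < (Ell F n).ncard := by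
    intro n
    exact_mod_cast (Set.ncard_pos (hfin n)).2 (hne n)
  refine ⟨?_, ?_, ?_⟩
  · intro n
    refine ⟨hfin n, hne n, fun f hf => ⟨?_, hEllFG n f hf, hSel n f hf⟩⟩
    rw [(hDSC (RatFunc F) h2K _ _ _).2, hdiscmap]
    have h16 : (16 : RatFunc F) ≠ 0 := by
      have : (16 : RatFunc F) = 2 ^ 4 := by norm_num
      rw [this]
      exact pow_ne_zero _ h2K
    exact mul_ne_zero h16 ((map_ne_zero_iff _ (RatFunc.algebraMap_injective F)).2 hf.2)
  · rw [Metric.tendsto_atTop]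
    intro ε hε
    obtain ⟨N₁, hN₁⟩ := hLMU F h2 (ε / 2) (by linarith)
    obtain ⟨N₂, hN₂⟩ := hLML F h2 (ε / 2) (by linarith)
    refine ⟨max N₁ N₂, fun n hn => ?_⟩
    have h5 := (hN₁ n ((le_max_left _ _).trans hn)).2.2
    have h6 := hN₂ n ((le_max_right _ _).trans hn)
    have hp := hpos n
    rw [Real.dist_eq, abs_lt]
    have h7 : (∑ᶠ f ∈ Ell F n, ((Sel f).ncard : ℝ)) / (Ell F n).ncard ≤ 3 + ε / 2 := by
      rw [div_le_iff₀ hp]
      exact h5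
    have h8 : 3 - ε / 2 ≤ (∑ᶠ f ∈ Ell F n, ((Sel f).ncard : ℝ)) / (Ell F n).ncard := by
      rw [le_div_iff₀ hp]
      exact h6
    constructor <;> linarith
  · intro ε hε
    obtain ⟨N₁, hN₁⟩ := hLMU F h2 (ε / 2) (by linarith)
    obtain ⟨N₂, hN₂⟩ := hRKR F h2 (ε / 2) (by linarith)
    refine ⟨max N₁ N₂, fun n hn => ?_⟩
    have h5 := (hN₁ n ((le_max_left _ _).trans hn)).2.2
    have h6 := hN₂ n ((le_max_right _ _).trans hn)
    have hsplit : ∀ g : F[X] × F[X] × F[X] → ℝ, ∑ᶠ f ∈ Ell F n, g f =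
        ∑ᶠ f ∈ Irr F n, g f + ∑ᶠ f ∈ Ell F n \ Irr F n, g f := by
      intro g
      have hu : Ell F n = Irr F n ∪ (Ell F n \ Irr F n) :=
        (Set.union_sdiff_cancel (hIrrEll n)).symm
      conv_lhs => rw [hu]
      exact finsum_mem_union Set.disjoint_sdiff_right ((hfin n).subset (hIrrEll n))
        ((hfin n).subset Set.sdiff_subset)
    have h7 : ∑ᶠ f ∈ Ell F n, (2 : ℝ) ^ rk f ≤ (3 + ε) * (Ell F n).ncard := by
      rw [hsplit]
      have h8 : ∑ᶠ f ∈ Irr F n, (2 : ℝ) ^ rk f ≤ ∑ᶠ f ∈ Irr F n, ((Sel f).ncard : ℝ) := by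
        refine finsum_mem_le ((hfin n).subset (hIrrEll n)) fun f hf => ?_
        refine (hle n f (hIrrEll n hf)).trans ?_
        exact_mod_cast hEMB F h2 n f hf (hSel n f (hIrrEll n hf))
      have h9 : ∑ᶠ f ∈ Irr F n, ((Sel f).ncard : ℝ) ≤ ∑ᶠ f ∈ Ell F n, ((Sel f).ncard : ℝ) := by
        rw [hsplit]
        have : 0 ≤ ∑ᶠ f ∈ Ell F n \ Irr F n, ((Sel f).ncard : ℝ) :=
          finsum_nonneg fun f => finsum_nonneg fun _ => Nat.cast_nonneg _
        linarith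
      have h10 : ∑ᶠ f ∈ Ell F n \ Irr F n, (2 : ℝ) ^ rk f ≤
          ∑ᶠ f ∈ Ell F n \ Irr F n, (Nat.card (Mod2 (EK f)) : ℝ) :=
        finsum_mem_le ((hfin n).subset Set.sdiff_subset) fun f hf => hle n f hf.1
      linarith
    refine ⟨h7, ?_, small_of_pow (hfin n) rk hε h7⟩
    refine (rank_of_pow (hfin n) rk h7).trans ?_
    refine mul_le_mul_of_nonneg_right ?_ (hpos n).le
    linarith

end Pool.AVS
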