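import Pool.Agent.H14.AVS.S1

/-!
# AVS: statements of the modules, part 2 (local theory)
-/

set_option autoImplicit false

namespace Pool.AVS

open Polynomial Matrix Pool.AVR

/-- TRN: `SO(A)(O)` is transitive on primitive isotropic vectors. -/
def TRNStmt : Prop :=
  ∀ (L : Type) [Field L] (O : ValuationSubring L) (π : L), Loc L O π → ∀ z : Fin 3 → L,
    (∀ i, z i ∈ O) → (∃ i, z i / π ∉ O) → bil (AA L) z z = 0 →
    ∃ (g : Matrix (Fin 3) (Fin 3) L) (t : L), gᵀ * AA L * g = AA L ∧ g.det = 1 ∧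
      MI (O : Set L) g ∧ UI (O : Set L) t ∧ g *ᵥ ![1, 0, 0] = t • z

/-- NFO: unimodular forms are equivalent to `A`. -/
def NFOStmt : Prop :=
  ∀ (L : Type) [Field L] (O : ValuationSubring L) (π : L), Loc L O π →
    ∀ (G : Matrix (Fin 3) (Fin 3) L) (ε : L), Gᵀ = G → MI (O : Set L) G → UI (O : Set L) ε →
    G.det = -ε ^ 2 → ∃ κ : Matrix (Fin 3) (Fin 3) L, GI (O : Set L) κ ∧ κᵀ * G * κ = AA L

/-- LTO: the lattice of a point of the covering. -/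
def LTOStmt : Prop :=
  ∀ (L : Type) [Field L] (O : ValuationSubring L) (π : L), Loc L O π →
    ∀ (B : Matrix (Fin 3) (Fin 3) L) (z : Fin 3 → L) (w : L), Bᵀ = B →
    ia B ∈ O → ib B ∈ O → ic B ∈ O → Cov B z w → w ≠ 0 →
    ∃ (g : Matrix (Fin 3) (Fin 3) L) (μ : L), gᵀ * AA L * g = AA L ∧ g.det = 1 ∧
      MI (O : Set L) (gᵀ * B * g) ∧ μ ≠ 0 ∧ g *ᵥ ![1, 0, 0] = μ • z ∧ μ * w ∈ O ∧
      (UI (O : Set L) (μ * w) ∨ UI (O : Set L) ((gᵀ * B * g) 0 1))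

/-- DS1: two points with the same smooth reduction differ by a point with nonintegral `x`. -/
def DS1Stmt : Prop :=
  ∀ (L : Type) [Field L] (O : ValuationSubring L) (π : L), Loc L O π →
    ∀ (B : Matrix (Fin 3) (Fin 3) L) (z₁ z₂ : Fin 3 → L) (w₁ w₂ t : L), Bᵀ = B →
    MI (O : Set L) B → Cov B z₁ w₁ → Cov B z₂ w₂ → Smo (O : Set L) π (AA L) B z₁ w₁ →
    (∀ i, z₂ i ∈ O) → UI (O : Set L) t → (∀ i, (z₂ i - t * z₁ i) / π ∈ O) →
    (w₂ - t * w₁) / π ∈ O →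
    (∀ x : L, bil (AA L) z₁ z₂ ≠ 0 → x * bil (AA L) z₁ z₂ = bil B z₁ z₂ - w₁ * w₂ → x ∉ O) ∧
    (∀ v : L, z₂ = v • z₁ → w₂ = -v * w₁ → w₁ ≠ 0 →
      bil (B * AA L * B) z₁ z₁ / w₁ ^ 2 ∉ O)

/-- DS2: the converse. -/
def DS2Stmt : Prop :=
  ∀ (L : Type) [Field L] (O : ValuationSubring L) (π : L), Loc L O π →
    ∀ (B : Matrix (Fin 3) (Fin 3) L) (z₁ z₂ : Fin 3 → L) (w₁ w₂ x : L), Bᵀ = B →
    MI (O : Set L) B → Cov B z₁ w₁ → Cov B z₂ w₂ → (∀ i, z₁ i ∈ O) → (∃ i, z₁ i / π ∉ O) →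
    (∀ i, z₂ i ∈ O) → (∃ i, z₂ i / π ∉ O) → bil (AA L) z₁ z₂ ≠ 0 →
    x * bil (AA L) z₁ z₂ = bil B z₁ z₂ - w₁ * w₂ → x ∉ O →
    ∃ t : L, UI (O : Set L) t ∧ (∀ i, (z₂ i - t * z₁ i) / π ∈ O) ∧ (w₂ - t * w₁) / π ∈ O

/-- UNI: the lattice in which a point is smooth is unique. -/
def UNIStmt : Prop :=
  ∀ (L : Type) [Field L] (O : ValuationSubring L) (π : L), Loc L O π →
    ∀ (B g : Matrix (Fin 3) (Fin 3) L) (z z' : Fin 3 → L) (w w' μ : L), Bᵀ = B →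
    MI (O : Set L) B → gᵀ * AA L * g = AA L → g.det = 1 → MI (O : Set L) (gᵀ * B * g) →
    Cov B z w → w ≠ 0 → Smo (O : Set L) π (AA L) B z w → μ ≠ 0 → g *ᵥ z' = μ • z →
    w' = μ * w → Smo (O : Set L) π (AA L) (gᵀ * B * g) z' w' → MI (O : Set L) g

/-- HSM: smooth points lift, in infinitely many ways. -/
def HSMStmt : Prop :=
  ∀ (L : Type) [Field L] (O : ValuationSubring L) (π : L), Loc L O π →
    ∀ (B : Matrix (Fin 3) (Fin 3) L) (z : Fin 3 → L) (w : L), Bᵀ = B → MI (O : Set L) B →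
    Smo (O : Set L) π (AA L) B z w → ∀ Z : Set L, Z.Finite →
    ∃ (s t w' : L), s ∉ Z ∧ t ≠ 0 ∧ w' ≠ 0 ∧ Cov B (t • zz 1 s) w' ∧
      (∀ i, (t • zz 1 s) i ∈ O) ∧ (∀ i, ((t • zz 1 s) i - z i) / π ∈ O) ∧ (w' - w) / π ∈ O

/-- EBU: upper bound for the number of inequivalent points. -/
def EBUStmt : Prop :=
  ∀ (L : Type) [Field L] (O : ValuationSubring L) (π : L), Loc L O π → ∀ (N : ℕ) (a b c : O),
    disc a b c ∉ (IsLocalRing.maximalIdeal O) ^ N → ∀ s : Finset (L × L),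
    (∀ p ∈ s, p.1 ∈ O ∧ p.2 ∈ O ∧ OnC (a : L) (b : L) (c : L) p.1 p.2) →
    (∀ p ∈ s, ∀ q ∈ s, p ≠ q → p.1 ≠ q.1 ∧ (p.2 + q.2) / (p.1 - q.1) ∈ O) →
    s.card * kap O ^ (N - 1) ≤
      nE (ON O N) (Ideal.Quotient.mk _ a) (Ideal.Quotient.mk _ b) (Ideal.Quotient.mk _ c)

/-- EBW: existence of that many inequivalent points. -/
def EBWStmt : Prop :=
  ∀ (L : Type) [Field L] (O : ValuationSubring L) (π : L), Loc L O π → ∀ (N : ℕ) (a b c : O),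
    disc a b c ∉ (IsLocalRing.maximalIdeal O) ^ N → ∀ Z : Set L, Z.Finite →
    ∃ s : Finset (L × L),
      (∀ p ∈ s, p.1 ∈ O ∧ p.2 ∈ O ∧ OnC (a : L) (b : L) (c : L) p.1 p.2 ∧ p.1 ∉ Z) ∧
      (∀ p ∈ s, ∀ q ∈ s, p ≠ q → p.1 ≠ q.1 ∧ (p.2 + q.2) / (p.1 - q.1) ∈ O) ∧
      nE (ON O N) (Ideal.Quotient.mk _ a) (Ideal.Quotient.mk _ b) (Ideal.Quotient.mk _ c) ≤
        s.card * kap O ^ (N - 1)

/-- LCU: many pairs (lattice, smooth point). -/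
def LCUStmt : Prop :=
  ∀ (L : Type) [Field L] (O : ValuationSubring L) (π : L), Loc L O π → ∀ (N : ℕ) (a b c : O),
    disc a b c ∉ (IsLocalRing.maximalIdeal O) ^ N →
    ∀ (B : Matrix (Fin 3) (Fin 3) L) (z₀ : Fin 3 → L) (w₀ : L), Bᵀ = B → ia B = a → ib B = b →
    ic B = c → Cov B z₀ w₀ → w₀ ≠ 0 →
    ∃ (M : ℕ) (g : Fin M → Matrix (Fin 3) (Fin 3) L) (z : Fin M → Fin 3 → L) (w : Fin M → L),
      (∀ i, KP (O : Set L) π B (g i) (z i) (w i)) ∧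
      (∀ i j, i ≠ j → ¬ Eqv (O : Set L) π (g i) (z i) (w i) (g j) (z j) (w j)) ∧
      nE (ON O N) (Ideal.Quotient.mk _ a) (Ideal.Quotient.mk _ b) (Ideal.Quotient.mk _ c) +
        kap O ^ (N - 1) ≤ M * kap O ^ (N - 1)

/-- LCL: not more pairs (lattice, smooth point). -/
def LCLStmt : Prop :=
  ∀ (L : Type) [Field L] (O : ValuationSubring L) (π : L), Loc L O π → ∀ (N : ℕ) (a b c : O),
    disc a b c ∉ (IsLocalRing.maximalIdeal O) ^ N →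
    ∀ (B : Matrix (Fin 3) (Fin 3) L), Bᵀ = B → ia B = a → ib B = b → ic B = c →
    ∀ (M : ℕ) (g : Fin M → Matrix (Fin 3) (Fin 3) L) (z : Fin M → Fin 3 → L) (w : Fin M → L),
      (∀ i, KP (O : Set L) π B (g i) (z i) (w i)) →
      (∀ i j, i ≠ j → ¬ Eqv (O : Set L) π (g i) (z i) (w i) (g j) (z j) (w j)) →
      M * kap O ^ (N - 1) ≤
        nE (ON O N) (Ideal.Quotient.mk _ a) (Ideal.Quotient.mk _ b) (Ideal.Quotient.mk _ c) +
          kap O ^ (N - 1)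

/-- UNQ: for discriminants of valuation at most one the lattice is unique. `I` is the local ring
at a place of any field. -/
def UNQStmt : Prop :=
  ∀ (K : Type) [Field K] (O : ValuationSubring K) (π : K), (2 : K) ≠ 0 → (2 : K)⁻¹ ∈ O →
    π ∈ O → π ≠ 0 → (∀ x : K, x ∈ O → x ≠ 0 → (x⁻¹ ∉ O ↔ x / π ∈ O)) →
    (∀ x : K, x ≠ 0 → ∃ n : ℤ, x / π ^ n ∈ O ∧ (x / π ^ n)⁻¹ ∈ O) →
    ∀ B g : Matrix (Fin 3) (Fin 3) K, Bᵀ = B → MI (O : Set K) B → dB B / π ^ 2 ∉ O →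
      gᵀ * AA K * g = AA K → MI (O : Set K) (gᵀ * B * g) → MI (O : Set K) g

/-- TRS: the trivial class is soluble over a local field. -/
def TRSStmt : Prop :=
  ∀ (L : Type) [Field L] (O : ValuationSubring L) (π : L), Loc L O π → ∀ a b c : L,
    LocSol a b c (1 : L[X])

end Pool.AVS
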