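import Pool.Agent.H14.AVS.S4

/-!
# AVS: statements of the modules, part 5 (large primes)
-/

set_option autoImplicit false

namespace Pool.AVS

open Polynomial Matrix Pool.AVR

/-- Triple root modulo `P`. -/
def TriP {F : Type} [Field F] (P a b c : F[X]) : Prop :=
  P ∣ a ^ 2 - 3 * b ∧ P ∣ a * b - 9 * c ∧ ((3 : F) = 0 → P ∣ b)

/-- Singular point modulo `P`. -/
def SngP {F : Type} [Field F] (P a b c : F[X]) : Prop :=
  ∃ s : F[X], P ∣ s ^ 3 + a * s ^ 2 + b * s + c ∧ P ∣ 3 * s ^ 2 + 2 * a * s + b ∧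
    P ∣ derivative a * s ^ 2 + derivative b * s + derivative c

/-- An auxiliary invariant. -/
noncomputable def nuB {F : Type} [Field F] (B : Matrix (Fin 3) (Fin 3) F[X]) : F[X] :=
  B 0 0 ^ 2 * B 1 2 + B 0 1 * (B 0 0 * B 1 1 - B 0 1 ^ 2 - B 0 0 * B 0 2)

/-- TB1: few degenerate matrices. -/
def TB1Stmt : Prop :=
  ∀ (F : Type) [Field F] [Finite F], (2 : F) ≠ 0 → ∀ (m : ℕ) (ε : ℝ), 0 < ε → ∃ N₀ : ℕ,
    ∀ n : ℕ, N₀ ≤ n → ({B : Matrix (Fin 3) (Fin 3) F[X] | Bd n m B ∧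
      (B 0 0 = 0 ∨ ia B = 0 ∨ nuB B = 0 ∨ dB B = 0)}.ncard : ℝ) ≤
        ε * (Nat.card F : ℝ) ^ (12 * n + 6)

/-- TB2: large common prime divisors are rare. -/
def TB2Stmt : Prop :=
  ∀ (F : Type) [Field F] [Finite F], (2 : F) ≠ 0 → ∀ (m : ℕ) (ε : ℝ), 0 < ε → ∃ N₀ : ℕ,
    ∀ n : ℕ, N₀ ≤ n → ({B : Matrix (Fin 3) (Fin 3) F[X] | Bd n m B ∧ B 0 0 ≠ 0 ∧
      ∃ P : F[X], P.Monic ∧ Irreducible P ∧ n < 2 * P.natDegree ∧ P ∣ B 0 0 ∧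
        (P ∣ B 0 1 ∨ P ∣ ia B)}.ncard : ℝ) ≤ ε * (Nat.card F : ℝ) ^ (12 * n + 6)

/-- TB3: large primes with a triple root. -/
def TB3Stmt : Prop :=
  ∀ (F : Type) [Field F] [Finite F], (2 : F) ≠ 0 → ∀ (m : ℕ) (ε : ℝ), 0 < ε → ∃ N₀ : ℕ,
    ∀ n : ℕ, N₀ ≤ n → ({B : Matrix (Fin 3) (Fin 3) F[X] | Bd n m B ∧ B 0 0 ≠ 0 ∧ ia B ≠ 0 ∧
      ∃ P : F[X], P.Monic ∧ Irreducible P ∧ n < 2 * P.natDegree ∧
        TriP P (ia B) (ib B) (ic B) ∧ ¬ (P ∣ B 0 0 ∧ (P ∣ B 0 1 ∨ P ∣ ia B))}.ncard : ℝ) ≤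
        ε * (Nat.card F : ℝ) ^ (12 * n + 6)

/-- TB4: large primes with a singular point. -/
def TB4Stmt : Prop :=
  ∀ (F : Type) [Field F] [Finite F], (2 : F) ≠ 0 → ∀ (m : ℕ) (ε : ℝ), 0 < ε → ∃ N₀ : ℕ,
    ∀ n : ℕ, N₀ ≤ n → ({B : Matrix (Fin 3) (Fin 3) F[X] | Bd n m B ∧ B 0 0 ≠ 0 ∧ nuB B ≠ 0 ∧
      ∃ P : F[X], P.Monic ∧ Irreducible P ∧ n < 2 * P.natDegree ∧
        SngP P (ia B) (ib B) (ic B) ∧ ¬ (P ∣ B 0 0 ∧ (P ∣ B 0 1 ∨ P ∣ ia B))}.ncard : ℝ) ≤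
        ε * (Nat.card F : ℝ) ^ (12 * n + 6)

/-- TB5: the two cases. -/
def TB5Stmt : Prop :=
  ∀ (F : Type) [Field F] [Finite F], (2 : F) ≠ 0 → ∀ P a b c : F[X], Irreducible P →
    P ^ 2 ∣ disc a b c → TriP P a b c ∨ SngP P a b c

/-- TB7: the resultant of the two conditions in TB4, by companion matrices: for a matrix `B` with
`B 0 0 ≠ 0`, `nuB B ≠ 0` and `P` not dividing `B 0 0`, there is a polynomial `R` of degree at
most `1000 (n + m + 1)`, depending only on the first five entries and on the derivative of the last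
one, divisible by `P` if there is a singular point modulo `P`, and nonzero for all but three values
of the derivative. -/
def TB7Stmt : Prop :=
  ∀ (F : Type) [Field F], (2 : F) ≠ 0 → ∀ (n m : ℕ) (al be ga de et : F[X]),
    al.natDegree ≤ 2 * n + 2 * m → be.natDegree ≤ 2 * n + 2 * m → ga.natDegree ≤ 2 * n + 2 * m →
    de.natDegree ≤ 2 * n + 2 * m → et.natDegree ≤ 2 * n + 2 * m → al ≠ 0 →
    nuB !![al, be, ga; be, de, et; ga, et, 0] ≠ 0 →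
    ∃ R : F[X] → F[X], {ζ : F[X] | R ζ = 0}.Finite ∧ {ζ : F[X] | R ζ = 0}.ncard ≤ 3 ∧
      (∀ ζ : F[X], ζ.natDegree ≤ 2 * n + 2 * m → (R ζ).natDegree ≤ 1000 * (n + m + 1)) ∧
      ∀ P z : F[X], Irreducible P → ¬ P ∣ al →
        SngP P (ia !![al, be, ga; be, de, et; ga, et, z]) (ib !![al, be, ga; be, de, et; ga, et, z])
          (ic !![al, be, ga; be, de, et; ga, et, z]) → P ∣ R (derivative z)

end Pool.AVS
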