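import Pool.Agent.H14.AVS.Final

/-!
# AVS: statements of the modules, part 6 (short equations, minimal equations)
-/

set_option autoImplicit false

namespace Pool.AVS

open Polynomial Matrix Pool.AVR

section

variable (F : Type) [Field F]

/-- The nonsingular short equations `y² = x³ + b x + c` of height `n`. -/
def Sht (n : ℕ) : Set (F[X] × F[X] × F[X]) := {f ∈ Ell F n | f.1 = 0}

/-- The minimal short equations of height exactly `n`. -/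
def ShtM (n : ℕ) : Set (F[X] × F[X] × F[X]) :=
  {f ∈ Sht F n | (∀ P : F[X], P.Monic → Irreducible P → ¬ (P ^ 4 ∣ f.2.1 ∧ P ^ 6 ∣ f.2.2)) ∧
    ¬ (1 ≤ n ∧ f ∈ Fam F (n - 1))}

variable {F}

/-- `f'` is obtained from `f` by the substitution `x ↦ l² x + r`, `y ↦ l³ y`. -/
def Subs (l r : F[X]) (f f' : F[X] × F[X] × F[X]) : Prop :=
  f'.1 = l ^ 2 * f.1 - 3 * r ∧ f'.2.1 = l ^ 4 * f.2.1 - 2 * l ^ 2 * r * f.1 + 3 * r ^ 2 ∧
    f'.2.2 = l ^ 6 * f.2.2 - l ^ 4 * r * f.2.1 + l ^ 2 * r ^ 2 * f.1 - r ^ 3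

end

/-- SHI: the Selmer group does not depend on the equation. -/
def SHIStmt : Prop :=
  ∀ (F : Type) [Field F], ∀ (f f' : F[X] × F[X] × F[X]) (l r : F[X]), l ≠ 0 →
    Subs l r f f' → (Sel f).ncard = (Sel f').ncard ∧
      (Irreducible (cubK f) ↔ Irreducible (cubK f'))

open Classical in
/-- SHP: the group of points does not depend on the equation. -/
def SHPStmt : Prop :=
  ∀ (F : Type) [Field F], (2 : F) ≠ 0 → ∀ (f f' : F[X] × F[X] × F[X]) (l r : F[X]), l ≠ 0 →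
    Subs l r f f' → Nonempty (EK f ≃+ EK f')

/-- SHC: from all equations to short equations. -/
def SHCStmt : Prop :=
  ∀ (F : Type) [Field F] [Finite F], (2 : F) ≠ 0 → (3 : F) ≠ 0 →
    ∀ G : F[X] × F[X] × F[X] → ℝ,
    (∀ (f f' : F[X] × F[X] × F[X]) (r : F[X]), Subs 1 r f f' → G f = G f') → ∀ n : ℕ,
    (Sht F n).Finite ∧
    ∑ᶠ f ∈ Ell F n, G f = (Nat.card F : ℝ) ^ (2 * n + 1) * ∑ᶠ f ∈ Sht F n, G f

/-- SHM: from short equations to minimal ones. -/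
def SHMStmt : Prop :=
  ∀ (F : Type) [Field F] [Finite F], (2 : F) ≠ 0 → (3 : F) ≠ 0 →
    (∀ G : F[X] × F[X] × F[X] → ℝ,
      (∀ (f f' : F[X] × F[X] × F[X]) (l : F[X]), l.Monic → Subs l 0 f f' → G f = G f') →
      ∀ n : ℕ, ∑ᶠ f ∈ ShtM F (n + 2), G f = ∑ᶠ f ∈ Sht F (n + 2), G f -
        (Nat.card F + 1) * ∑ᶠ f ∈ Sht F (n + 1), G f + Nat.card F * ∑ᶠ f ∈ Sht F n, G f) ∧
    ∀ n : ℕ, (Nat.card F : ℝ) ^ (10 * n + 2) / 4 ≤ (Sht F n).ncard ∧
      ((Sht F n).ncard : ℝ) ≤ (Nat.card F : ℝ) ^ (10 * n + 2)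

end Pool.AVS
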