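import Mathlib

/-!
# MP_81dc49, the average size of the 2-Selmer group over `F(t)`: definitions

`K = F(t)` and `E_f : y² = x³ + a x² + b x + c` for `f = (a, b, c)`, `a, b, c ∈ F[t]`.
-/

set_option autoImplicit false

open Polynomial

namespace Pool.SelAvg

/-- The polynomial `X³ + a X² + b X + c`. -/
noncomputable def cub {K : Type} [CommRing K] (a b c : K) : K[X] :=
  X ^ 3 + C a * X ^ 2 + C b * X + C c

/-- The curve `y² = x³ + a x² + b x + c`. -/
def curve {K : Type} [CommRing K] (a b c : K) : WeierstrassCurve K := ⟨0, a, 0, b, c⟩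

open Classical in
/-- The rank of the group of points of `E`. -/
noncomputable def rank {K : Type} [Field K] (E : WeierstrassCurve K) : ℕ :=
  Module.finrank ℤ E.toAffine.Point

open Classical in
/-- The group of points of `E` is finitely generated. -/
def FinGen {K : Type} [Field K] (E : WeierstrassCurve K) : Prop := AddGroup.FG E.toAffine.Point

/-- The units of `A` modulo squares. -/
abbrev Cls (A : Type) [CommRing A] : Type := Aˣ ⧸ (powMonoidHom 2 : Aˣ →* Aˣ).range

/-- The classes modulo squares of the units `u` of `A`, of square norm, with the property `P`. -/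
def Sqn (K A : Type) [Field K] [CommRing A] [Algebra K A] (P : A → Prop) : Set (Cls A) :=
  {ξ | ∃ u : Aˣ, QuotientGroup.mk u = ξ ∧ IsSquare (Algebra.norm K (u : A)) ∧ P u}

/-- Over the extension `L` of `K` and up to squares, `u` is `x - X` for a point `(x, y)`, `y ≠ 0`,
of the curve. -/
def FromPoint {K : Type} [Field K] (a b c : K) (L : Type) [Field L] [Algebra K L]
    (u : AdjoinRoot (cub a b c)) : Prop :=
  ∃ p : K[X], AdjoinRoot.mk (cub a b c) p = u ∧
    ∃ x y : L, y ^ 2 = aeval x (cub a b c) ∧ y ≠ 0 ∧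
      ∃ s : L[X], (cub a b c).map (algebraMap K L) ∣ (C x - X) - p.map (algebraMap K L) * s ^ 2

/-- The classes of the units of square norm which come from points over all completions of `K` at
the primes of `R` and over `L`. -/
def SelG {K : Type} [Field K] (a b c : K) (R L : Type) [CommRing R] [IsDedekindDomain R]
    [Algebra R K] [IsFractionRing R K] [Field L] [Algebra K L] :
    Set (Cls (AdjoinRoot (cub a b c))) :=
  Sqn K (AdjoinRoot (cub a b c)) fun u =>
    (∀ v : IsDedekindDomain.HeightOneSpectrum R, FromPoint a b c (v.adicCompletion K) u) ∧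
    FromPoint a b c L u

/-- The statement on the averages of `s` (to be the size of the Selmer group) and of `r` (to be
the rank) over the sets `S n`. -/
def Avg {T : Type} (S : ℕ → Set T) (s r : T → ℕ) : Prop :=
  (∀ n : ℕ, (S n).Finite) ∧ (∃ N : ℕ, ∀ n : ℕ, N ≤ n → (S n).Nonempty) ∧
  Filter.Tendsto (fun n : ℕ => (∑ᶠ f ∈ S n, (s f : ℝ)) / (S n).ncard) Filter.atTop (nhds 3) ∧
  ∀ ε : ℝ, 0 < ε → ∃ N : ℕ, ∀ n : ℕ, N ≤ n →
    ∑ᶠ f ∈ S n, (2 : ℝ) ^ r f ≤ (3 + ε) * (S n).ncard ∧
    ∑ᶠ f ∈ S n, (r f : ℝ) ≤ (3 / 2 + ε) * (S n).ncard ∧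
    (1 / 3 - ε) * (S n).ncard ≤ {f ∈ S n | r f ≤ 1}.ncard

section
variable {F : Type} [Field F]

/-- A polynomial as an element of `F(t)`. -/
noncomputable def toK (p : F[X]) : RatFunc F := algebraMap F[X] (RatFunc F) p

/-- The curve `E_f` over `F(t)`. -/
noncomputable def E (f : F[X] × F[X] × F[X]) : WeierstrassCurve (RatFunc F) :=
  curve (toK f.1) (toK f.2.1) (toK f.2.2)

open Classical in
/-- The 2-Selmer group of `E_f`. -/
def Sel (f : F[X] × F[X] × F[X]) :
    Set (Cls (AdjoinRoot (cub (toK f.1) (toK f.2.1) (toK f.2.2)))) :=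
  SelG (toK f.1) (toK f.2.1) (toK f.2.2) F[X] (RatFunc.CompletionAtInfty F)

/-- Its number of elements. -/
noncomputable def nSel (f : F[X] × F[X] × F[X]) : ℕ := (Sel f).ncard

/-- The rank of `E_f(F(t))`. -/
noncomputable def rk (f : F[X] × F[X] × F[X]) : ℕ := rank (E f)

end

section
variable (F : Type) [Field F]

/-- The triples `(a, b, c)` of polynomials of degree at most `2n, 4n, 6n`. -/
def Fam (n : ℕ) : Set (F[X] × F[X] × F[X]) :=
  {f | f.1.natDegree ≤ 2 * n ∧ f.2.1.natDegree ≤ 4 * n ∧ f.2.2.natDegree ≤ 6 * n}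

/-- Those of nonzero discriminant. -/
def Ell (n : ℕ) : Set (F[X] × F[X] × F[X]) := {f ∈ Fam F n | (curve f.1 f.2.1 f.2.2).Δ ≠ 0}

/-- The short equations. -/
def Sht (n : ℕ) : Set (F[X] × F[X] × F[X]) := {f ∈ Ell F n | f.1 = 0}

/-- The minimal short equations of height exactly `n`. -/
def ShtM (n : ℕ) : Set (F[X] × F[X] × F[X]) :=
  {f ∈ Sht F n | (∀ P : F[X], P.Monic → Irreducible P → ¬ (P ^ 4 ∣ f.2.1 ∧ P ^ 6 ∣ f.2.2)) ∧
    ¬ (1 ≤ n ∧ f ∈ Fam F (n - 1))}

end

end Pool.SelAvg
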