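import Pool.Agent.H14.AVS.All
import Pool.Agent.H14.AVS.Short

/-!
# MP_81dc49, the average size of the 2-Selmer group over `F(t)`: the theorem in short form
-/

set_option autoImplicit false

open Polynomial

namespace Pool.SelAvg

theorem main (F : Type) [Field F] [Finite F] (h2 : (2 : F) ≠ 0) :
    (∀ n : ℕ, ∀ f ∈ Ell F n, (E f).Δ ≠ 0 ∧ FinGen (E f) ∧ (Sel f).Finite) ∧
    Avg (Ell F) nSel rk ∧ ((3 : F) ≠ 0 → Avg (Sht F) nSel rk ∧ Avg (ShtM F) nSel rk) := by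
  have h16 : (16 : F[X]) ≠ 0 := by
    have h : (16 : F[X]) = C ((2 : F) ^ 4) := by
      rw [map_pow, show (C (2 : F) : F[X]) = 2 from map_ofNat C 2]
      norm_num
    rw [h, Ne, C_eq_zero]
    exact pow_ne_zero 4 h2
  have hE : Ell F = Pool.AVR.Ell F := by
    funext n
    ext f
    have h : (curve f.1 f.2.1 f.2.2).Δ = 16 * Pool.AVR.disc f.1 f.2.1 f.2.2 := by
      simp only [curve, WeierstrassCurve.Δ, WeierstrassCurve.b₂, WeierstrassCurve.b₄,
        WeierstrassCurve.b₆, WeierstrassCurve.b₈, Pool.AVR.disc]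
      ring
    change (f ∈ Pool.AVR.Fam F n ∧ (curve f.1 f.2.1 f.2.2).Δ ≠ 0) ↔
      (f ∈ Pool.AVR.Fam F n ∧ Pool.AVR.disc f.1 f.2.1 f.2.2 ≠ 0)
    rw [h]
    exact and_congr_right fun _ => (mul_ne_zero_iff_left h16)
  have hloc : ∀ (f : F[X] × F[X] × F[X]) (L : Type) [Field L] [Algebra (RatFunc F) L]
      (u : (Pool.AVS.Alg f)ˣ),
      FromPoint (toK f.1) (toK f.2.1) (toK f.2.2) L (u : Pool.AVS.Alg f) ↔
        Pool.AVS.LocAt L f u := by
    intro f L _ _ u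
    have h1 : ∀ x : L, aeval x (cub (toK f.1) (toK f.2.1) (toK f.2.2)) =
        x ^ 3 + algebraMap (RatFunc F) L (toK f.1) * x ^ 2 +
          algebraMap (RatFunc F) L (toK f.2.1) * x + algebraMap (RatFunc F) L (toK f.2.2) := by
      intro x
      simp [cub]
    have h2 : (cub (toK f.1) (toK f.2.1) (toK f.2.2)).map (algebraMap (RatFunc F) L) =
        Pool.AVR.cub (algebraMap (RatFunc F) L (toK f.1)) (algebraMap (RatFunc F) L (toK f.2.1))
          (algebraMap (RatFunc F) L (toK f.2.2)) := by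
      simp [cub, Pool.AVR.cub]
    unfold FromPoint
    simp only [h1, h2]
    exact Iff.rfl
  have hS : ∀ f : F[X] × F[X] × F[X], Sel f = Pool.AVS.Sel f := by
    intro f
    ext ξ
    constructor
    · rintro ⟨u, h1, h2, h3, h4⟩
      exact ⟨u, h1, h2, fun v => (hloc f _ u).1 (h3 v), (hloc f _ u).1 h4⟩
    · rintro ⟨u, h1, h2, h3, h4⟩
      exact ⟨u, h1, h2, fun v => (hloc f _ u).2 (h3 v), (hloc f _ u).2 h4⟩
  have hT : Sht F = Pool.AVS.Sht F := by
    funext n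
    change {f ∈ Ell F n | f.1 = 0} = _
    rw [hE]
    rfl
  have hM : ShtM F = Pool.AVS.ShtM F := by
    funext n
    change {f ∈ Sht F n | (∀ P : F[X], P.Monic → Irreducible P →
      ¬ (P ^ 4 ∣ f.2.1 ∧ P ^ 6 ∣ f.2.2)) ∧ ¬ (1 ≤ n ∧ f ∈ Fam F (n - 1))} = _
    rw [hT]
    rfl
  have hA : ∀ S : ℕ → Set (F[X] × F[X] × F[X]), Pool.AVS.Avg S →
      Avg S nSel rk := by
    intro S h
    have h1 : (nSel : F[X] × F[X] × F[X] → ℕ) =
        fun f => (Pool.AVS.Sel f).ncard := funext fun f => by rw [nSel, hS f]; rfl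
    rw [h1]
    exact h
  rw [hE, hT, hM]
  obtain ⟨g1, g2, g3⟩ := Pool.AVS.mainAll F h2
  exact ⟨fun n f hf => ⟨(g1 n f hf).1, (g1 n f hf).2.1, (hS f) ▸ (g1 n f hf).2.2⟩, hA _ g2,
    fun h3 => ⟨hA _ (g3 h3).1, hA _ (g3 h3).2⟩⟩

end Pool.SelAvg
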